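import Pool.Agent.N183.U9.Stm2

/-!
# RB/ALT (helper570): antisymmetrization of a sum of products
-/

set_option autoImplicit false

namespace Pool.Agent.N570.RBALT

open Equiv Equiv.Perm

lemma sgn_sq {K : Type} [Field K] {κ : Type} [Fintype κ] [DecidableEq κ] (θ : Perm κ) :
    ((sign θ : ℤ) : K) * ((sign θ : ℤ) : K) = 1 := by
  rw [← Int.cast_mul, ← Units.val_mul, Int.units_mul_self]
  simp

/-- substitution in an alternating sum -/
lemma sum_subst {K : Type} [Field K] {κ : Type} [Fintype κ] [DecidableEq κ] (θ : Perm κ)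
    (G : Perm κ → K) :
    ∑ τ : Perm κ, ((sign τ : ℤ) : K) * G (τ * θ) =
      ((sign θ : ℤ) : K) * ∑ τ : Perm κ, ((sign τ : ℤ) : K) * G τ := by
  rw [← Equiv.sum_comp (Equiv.mulRight θ) (fun τ => ((sign τ : ℤ) : K) * G τ), Finset.mul_sum]
  refine Finset.sum_congr rfl fun τ _ => ?_
  have h := sgn_sq (K := K) θ
  simp only [Equiv.coe_mulRight, Equiv.Perm.sign_mul, Units.val_mul, Int.cast_mul]
  calc ((sign τ : ℤ) : K) * G (τ * θ)
      = (((sign θ : ℤ) : K) * ((sign θ : ℤ) : K)) * (((sign τ : ℤ) : K) * G (τ * θ)) := by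
        rw [h, one_mul]
    _ = _ := by ring

lemma univ_two : (Finset.univ : Finset (Perm (Fin 2))) = {1, Equiv.swap 0 1} := by decide

section

variable {K : Type} [Field K] [CharZero K] {H κ : Type} [Fintype κ] [DecidableEq κ] {k : ℕ}
  {β : Type} [Fintype β] [DecidableEq β]

lemma two_term (c : Fin 2 → Fin 2 → ℚ) :
    ((c 0 1 - c 1 0 : ℚ) : K) = ∑ ρ : Perm (Fin 2), ((sign ρ : ℤ) : K) * (c (ρ 0) (ρ 1) : K) := by
  have h : (1 : Perm (Fin 2)) ∉ ({Equiv.swap 0 1} : Finset (Perm (Fin 2))) := by decide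
  rw [univ_two, Finset.sum_insert h, Finset.sum_singleton]
  rw [Equiv.Perm.sign_one, Equiv.Perm.sign_swap (by decide), Equiv.swap_apply_left, Equiv.swap_apply_right]
  simp [sub_eq_add_neg]

/-- the main computation for one product -/
lemma one (σ : (Fin k × Fin 2) ⊕ β ≃ κ) (b : Fin k → H → H → ℚ) (ψ : (β → H) → K) (v : κ → H) :
    ∑ τ : Perm κ, ((sign τ : ℤ) : K) *
      ((∏ i, ((b i (v (τ (σ (Sum.inl (i, 0))))) (v (τ (σ (Sum.inl (i, 1))))) -
        b i (v (τ (σ (Sum.inl (i, 1))))) (v (τ (σ (Sum.inl (i, 0))))) : ℚ) : K)) *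
      ∑ π : Perm β, ((sign π : ℤ) : K) * ψ (fun x => v (τ (σ (Sum.inr (π x)))))) =
    ((Fintype.card (Fin k → Perm (Fin 2)) * Fintype.card (Perm β) : ℕ) : K) *
      ∑ τ : Perm κ, ((sign τ : ℤ) : K) *
        ((∏ i, ((b i (v (τ (σ (Sum.inl (i, 0))))) (v (τ (σ (Sum.inl (i, 1))))) : ℚ) : K)) *
          ψ (fun x => v (τ (σ (Sum.inr x))))) := by
  obtain ⟨F, hF⟩ : ∃ F : Perm κ → K, F = fun τ =>
      ((∏ i, ((b i (v (τ (σ (Sum.inl (i, 0))))) (v (τ (σ (Sum.inl (i, 1))))) : ℚ) : K)) *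
          ψ (fun x => v (τ (σ (Sum.inr x))))) := ⟨_, rfl⟩
  obtain ⟨θ, hθ⟩ : ∃ θ : (Fin k → Perm (Fin 2)) → Perm β → Perm κ, θ = fun s π =>
      σ.permCongr (Equiv.Perm.sumCongr (Equiv.prodCongrRight s) π) := ⟨_, rfl⟩
  have hsg : ∀ s π, ((sign (θ s π) : ℤ) : K) =
      (∏ i, ((sign (s i) : ℤ) : K)) * ((sign π : ℤ) : K) := by
    intro s π
    rw [hθ]
    simp only [sign_permCongr, sign_sumCongr, sign_prodCongrRight]
    push_cast
    rfl
  have hFθ : ∀ τ s π, F (τ * θ s π) =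
      (∏ i, ((b i (v (τ (σ (Sum.inl (i, s i 0))))) (v (τ (σ (Sum.inl (i, s i 1))))) : ℚ) : K)) *
          ψ (fun x => v (τ (σ (Sum.inr (π x))))) := by
    intro τ s π
    rw [hF, hθ]
    simp [Equiv.permCongr_apply]
  have h1 : ∀ τ : Perm κ,
      ((∏ i, ((b i (v (τ (σ (Sum.inl (i, 0))))) (v (τ (σ (Sum.inl (i, 1))))) -
        b i (v (τ (σ (Sum.inl (i, 1))))) (v (τ (σ (Sum.inl (i, 0))))) : ℚ) : K)) *
      ∑ π : Perm β, ((sign π : ℤ) : K) * ψ (fun x => v (τ (σ (Sum.inr (π x)))))) =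
      ∑ s : Fin k → Perm (Fin 2), ∑ π : Perm β, ((sign (θ s π) : ℤ) : K) * F (τ * θ s π) := by
    intro τ
    have h2 : ∀ i, ((b i (v (τ (σ (Sum.inl (i, 0))))) (v (τ (σ (Sum.inl (i, 1))))) -
        b i (v (τ (σ (Sum.inl (i, 1))))) (v (τ (σ (Sum.inl (i, 0))))) : ℚ) : K) =
        ∑ ρ : Perm (Fin 2), ((sign ρ : ℤ) : K) *
          ((b i (v (τ (σ (Sum.inl (i, ρ 0))))) (v (τ (σ (Sum.inl (i, ρ 1))))) : ℚ) : K) :=
      fun i => two_term (K := K)
        (fun x y => b i (v (τ (σ (Sum.inl (i, x))))) (v (τ (σ (Sum.inl (i, y))))))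
    rw [Finset.prod_congr rfl (fun i _ => h2 i), Finset.prod_univ_sum, Fintype.piFinset_univ,
      Finset.sum_mul_sum]
    refine Finset.sum_congr rfl fun s _ => Finset.sum_congr rfl fun π _ => ?_
    rw [hFθ, hsg, Finset.prod_mul_distrib]
    ring
  have h3 : ∀ s π, ∑ τ : Perm κ, ((sign τ : ℤ) : K) * (((sign (θ s π) : ℤ) : K) * F (τ * θ s π)) =
      ∑ τ : Perm κ, ((sign τ : ℤ) : K) * F τ := by
    intro s π
    have h4 : ∀ τ : Perm κ, ((sign τ : ℤ) : K) * (((sign (θ s π) : ℤ) : K) * F (τ * θ s π)) =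
        ((sign (θ s π) : ℤ) : K) * (((sign τ : ℤ) : K) * F (τ * θ s π)) := fun τ => by ring
    rw [Finset.sum_congr rfl (fun τ _ => h4 τ), ← Finset.mul_sum, sum_subst, ← mul_assoc, sgn_sq,
      one_mul]
  have h5 : ∀ τ : Perm κ, ((sign τ : ℤ) : K) *
      (∑ s : Fin k → Perm (Fin 2), ∑ π : Perm β, ((sign (θ s π) : ℤ) : K) * F (τ * θ s π)) =
      ∑ s : Fin k → Perm (Fin 2), ∑ π : Perm β,
        ((sign τ : ℤ) : K) * (((sign (θ s π) : ℤ) : K) * F (τ * θ s π)) := by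
    intro τ
    simp only [Finset.mul_sum]
  have h6 : ∑ τ : Perm κ, ((sign τ : ℤ) : K) *
        ((∏ i, ((b i (v (τ (σ (Sum.inl (i, 0))))) (v (τ (σ (Sum.inl (i, 1))))) : ℚ) : K)) *
          ψ (fun x => v (τ (σ (Sum.inr x))))) = ∑ τ : Perm κ, ((sign τ : ℤ) : K) * F τ := by
    rw [hF]
  rw [h6, Finset.sum_congr rfl (fun τ _ => (congrArg _ (h1 τ)).trans (h5 τ)), Finset.sum_comm]
  have h7 : ∀ s : Fin k → Perm (Fin 2), ∑ τ : Perm κ, ∑ π : Perm β,
        ((sign τ : ℤ) : K) * (((sign (θ s π) : ℤ) : K) * F (τ * θ s π)) =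
      ∑ π : Perm β, ∑ τ : Perm κ, ((sign τ : ℤ) : K) * F τ := by
    intro s
    rw [Finset.sum_comm]
    exact Finset.sum_congr rfl fun π _ => h3 s π
  rw [Finset.sum_congr rfl (fun s _ => h7 s)]
  rw [Finset.sum_const, Finset.sum_const, Finset.card_univ, Finset.card_univ, smul_smul,
    nsmul_eq_mul]

end

/-- **ALT** -/
theorem ALT : Pool.Agent.N183.U9.S_ALT := by
  intro K _ _ H κ _ _ φ hφ J _ k β _ _ σ b ψ h
  refine ⟨fun j => (((Fintype.card (Perm κ) : ℕ) : K) *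
    ((Fintype.card (Fin (k j) → Perm (Fin 2)) * Fintype.card (Perm (β j)) : ℕ) : K))⁻¹, ?_⟩
  intro v
  have hc : ((Fintype.card (Perm κ) : ℕ) : K) ≠ 0 := by
    rw [Nat.cast_ne_zero]
    exact Fintype.card_ne_zero
  have hcj : ∀ j, ((Fintype.card (Fin (k j) → Perm (Fin 2)) *
      Fintype.card (Perm (β j)) : ℕ) : K) ≠ 0 := by
    intro j
    rw [Nat.cast_ne_zero]
    exact mul_ne_zero Fintype.card_ne_zero Fintype.card_ne_zero
  have h1 : ((Fintype.card (Perm κ) : ℕ) : K) * φ v =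
      ∑ τ : Perm κ, ((sign τ : ℤ) : K) * φ (fun x => v (τ x)) := by
    have h2 : ∀ τ : Perm κ, ((sign τ : ℤ) : K) * φ (fun x => v (τ x)) = φ v := by
      intro τ
      rw [hφ τ v, ← mul_assoc, sgn_sq, one_mul]
    rw [Finset.sum_congr rfl (fun τ _ => h2 τ), Finset.sum_const, Finset.card_univ, nsmul_eq_mul]
  have h2 : ∑ τ : Perm κ, ((sign τ : ℤ) : K) * φ (fun x => v (τ x)) =
      ∑ j, ∑ τ : Perm κ, ((sign τ : ℤ) : K) *
        ((∏ i, ((b j i (v (τ (σ j (Sum.inl (i, 0))))) (v (τ (σ j (Sum.inl (i, 1))))) : ℚ) : K)) *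
          ψ j (fun x => v (τ (σ j (Sum.inr x))))) := by
    rw [Finset.sum_comm]
    refine Finset.sum_congr rfl fun τ _ => ?_
    rw [h (fun x => v (τ x)), Finset.mul_sum]
  apply mul_left_cancel₀ hc
  rw [h1, h2, Finset.mul_sum]
  refine Finset.sum_congr rfl fun j _ => ?_
  rw [one (σ j) (b j) (ψ j) v, ← mul_assoc, ← mul_assoc]
  beta_reduce
  rw [mul_inv, ← mul_assoc, mul_inv_cancel₀ hc, one_mul, inv_mul_cancel₀ (hcj j), one_mul]

end Pool.Agent.N570.RBALT
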