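import Pool.Agent.N604.MW.Stm4

/-! # KV/PART: coinciding entries (helper570) -/

set_option autoImplicit false

namespace Pool.Agent.N570.KVPart

open Pool.Agent.N604.MW Finset MeasureTheory ENNReal

/-! ### the weight -/

theorem qq_nonneg (t : ℝ) : 0 ≤ qq t := by
  unfold qq
  split_ifs
  · norm_num
  · positivity

theorem qq_le_one (t : ℝ) : qq t ≤ 1 := by
  unfold qq
  split_ifs with h
  · exact le_refl _
  · rw [not_le] at h
    have h1 : 1 ≤ t ^ 2 := by
      rw [← sq_abs]
      nlinarith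
    rw [div_le_one (by linarith)]
    exact h1

theorem qq_le (t : ℝ) : qq t ≤ 5 * (1 + t ^ 2)⁻¹ := by
  unfold qq
  split_ifs with h
  · have h1 : t ^ 2 ≤ 4 := by
      rw [← sq_abs]
      have := abs_nonneg t
      nlinarith
    have h2 : 0 < 1 + t ^ 2 := by positivity
    rw [← div_eq_mul_inv, le_div_iff₀ h2]
    linarith
  · rw [not_le] at h
    have h1 : 4 ≤ t ^ 2 := by
      rw [← sq_abs]
      nlinarith
    have h2 : 0 < 1 + t ^ 2 := by positivity
    rw [← div_eq_mul_inv, div_le_div_iff₀ (by linarith) h2]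
    nlinarith

theorem qq_meas : Measurable qq := by
  unfold qq
  refine Measurable.ite ?_ measurable_const ?_
  · exact measurableSet_le (measurable_norm (α := ℝ)) measurable_const
  · fun_prop

theorem int_qq (J : Type) [Fintype J] : ∫⁻ v : J → ℝ, ∏ j, ENNReal.ofReal (qq (v j)) ≤
    ENNReal.ofReal ((5 * Real.pi) ^ Fintype.card J) := by
  have hint : Integrable (fun t : ℝ => 5 * (1 + t ^ 2)⁻¹) := integrable_inv_one_add_sq.const_mul 5
  have h1 : ∀ v : J → ℝ, ∏ j, ENNReal.ofReal (qq (v j)) ≤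
      ENNReal.ofReal (∏ j, (5 * (1 + (v j) ^ 2)⁻¹)) := by
    intro v
    rw [ENNReal.ofReal_prod_of_nonneg fun j _ => by positivity]
    exact Finset.prod_le_prod' fun j _ => ENNReal.ofReal_le_ofReal (qq_le _)
  refine (lintegral_mono h1).trans ?_
  rw [← ofReal_integral_eq_lintegral_ofReal]
  · apply ENNReal.ofReal_le_ofReal
    rw [integral_fintype_prod_volume_eq_pow (fun t : ℝ => 5 * (1 + t ^ 2)⁻¹)]
    rw [integral_const_mul, integral_univ_inv_one_add_sq]
  · exact Integrable.fintype_prod (f := fun _ : J => fun t : ℝ => 5 * (1 + t ^ 2)⁻¹) fun _ => hint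
  · exact Filter.Eventually.of_forall fun v => Finset.prod_nonneg fun j _ => by positivity

/-- the sums over the fibres -/
noncomputable def BB {n g : ℕ} (f : Fin n → Fin g) (γ : Fin n → ℝ) : Fin g → ℝ :=
  fun a => ∑ j, if f j = a then γ j else 0

theorem BB_meas {n g : ℕ} (f : Fin n → Fin g) : Measurable (BB f) := by
  unfold BB
  refine measurable_pi_lambda _ fun a => Finset.measurable_sum _ fun j _ => ?_
  split_ifs
  · exact measurable_pi_apply j
  · exact measurable_const

theorem shift {n g : ℕ} (f : Fin n → Fin g) (hf : Function.Surjective f)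
    (Φ : (Fin g → ℝ) → ℝ≥0∞) (hΦ : Measurable Φ) :
    ∫⁻ γ : Fin n → ℝ, (∏ j, ENNReal.ofReal (qq (γ j))) * Φ (BB f γ) ≤
      ENNReal.ofReal ((5 * Real.pi) ^ n) * ∫⁻ B, Φ B := by
  classical
  choose σ hσ using hf
  set p : Fin n → Prop := fun j => σ (f j) = j with hp
  let τ : Fin g ≃ {j // p j} :=
    { toFun := fun a => ⟨σ a, by rw [hp]; simp only [hσ]⟩
      invFun := fun j => f j.1
      left_inv := fun a => hσ a
      right_inv := fun j => Subtype.ext j.2 }
  set F : (Fin n → ℝ) → ℝ≥0∞ := fun γ => (∏ j, ENNReal.ofReal (qq (γ j))) * Φ (BB f γ) with hF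
  have hFm : Measurable F := by
    refine Measurable.mul ?_ (hΦ.comp (BB_meas f))
    exact Finset.measurable_prod _ fun j _ => (qq_meas.comp (measurable_pi_apply j)).ennreal_ofReal
  set e := MeasurableEquiv.piEquivPiSubtypeProd (fun _ : Fin n => ℝ) p with he
  have hmp : MeasurePreserving e volume volume :=
    volume_preserving_piEquivPiSubtypeProd (fun _ : Fin n => ℝ) p
  have h1 := (hmp.symm e).lintegral_comp_emb e.symm.measurableEmbedding F
  have hFe : Measurable fun y => F (e.symm y) := hFm.comp e.symm.measurable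
  rw [← h1, Measure.volume_eq_prod, lintegral_prod_symm' (fun y => F (e.symm y)) hFe]
  have he1 : ∀ (u : {j // p j} → ℝ) (v : {j // ¬ p j} → ℝ) (j : {j // p j}),
      e.symm (u, v) j.1 = u j := by
    intro u v j
    have : e.symm (u, v) j.1 = if h : p j.1 then u ⟨j.1, h⟩ else v ⟨j.1, h⟩ := rfl
    rw [this, dif_pos j.2]
  have he2 : ∀ (u : {j // p j} → ℝ) (v : {j // ¬ p j} → ℝ) (j : {j // ¬ p j}),
      e.symm (u, v) j.1 = v j := by
    intro u v j
    have : e.symm (u, v) j.1 = if h : p j.1 then u ⟨j.1, h⟩ else v ⟨j.1, h⟩ := rfl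
    rw [this, dif_neg j.2]
  -- the inner integral
  have key : ∀ v : {j // ¬ p j} → ℝ, ∫⁻ u : {j // p j} → ℝ, F (e.symm (u, v)) ≤
      (∏ j, ENNReal.ofReal (qq (v j))) * ∫⁻ B, Φ B := by
    intro v
    set w : Fin g → ℝ := fun a => ∑ j : {j // ¬ p j}, if f j.1 = a then v j else 0 with hw
    have hpt : ∀ u : {j // p j} → ℝ, F (e.symm (u, v)) ≤
        (∏ j, ENNReal.ofReal (qq (v j))) * Φ (fun a => u (τ a) + w a) := by
      intro u
      have e1 : BB f (e.symm (u, v)) = fun a => u (τ a) + w a := by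
        funext a
        unfold BB
        rw [← Fintype.sum_subtype_add_sum_subtype p]
        congr 1
        · simp only [he1]
          have h2 : ∀ j : {j // p j}, (if f j.1 = a then u j else 0) = if j = τ a then u j else 0 := by
            intro j
            have h3 : f j.1 = a ↔ j = τ a := by
              constructor
              · intro h
                rw [← h]
                exact (τ.right_inv j).symm
              · intro h
                rw [h]
                exact hσ a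
            rw [if_congr h3 rfl rfl]
          simp only [h2]
          rw [Finset.sum_ite_eq' univ (τ a) u, if_pos (mem_univ _)]
        · simp only [he2, hw]
      have e2 : ∏ j, ENNReal.ofReal (qq (e.symm (u, v) j)) ≤ ∏ j, ENNReal.ofReal (qq (v j)) := by
        rw [← Fintype.prod_subtype_mul_prod_subtype p]
        simp only [he1, he2]
        refine mul_le_of_le_one_left' ?_
        refine Finset.prod_le_one' fun j _ => ?_
        rw [ENNReal.ofReal_le_one]
        exact qq_le_one _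
      simp only [hF]
      rw [e1]
      exact mul_le_mul_left e2 _
    refine (lintegral_mono hpt).trans ?_
    have hm2 : Measurable fun u : {j // p j} → ℝ => Φ (fun a => u (τ a) + w a) := by
      refine hΦ.comp (measurable_pi_lambda _ fun a => ?_)
      exact (measurable_pi_apply _).add_const _
    rw [lintegral_const_mul _ hm2]
    refine le_of_eq ?_
    congr 1
    have hmp2 : MeasurePreserving (MeasurableEquiv.piCongrLeft (fun _ : Fin g => ℝ) τ.symm)
        volume volume := volume_measurePreserving_piCongrLeft (fun _ : Fin g => ℝ) τ.symm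
    have h4 := hmp2.lintegral_comp_emb (MeasurableEquiv.measurableEmbedding _)
      (fun B : Fin g → ℝ => Φ (B + w))
    have h5 : ∀ u : {j // p j} → ℝ, MeasurableEquiv.piCongrLeft (fun _ : Fin g => ℝ) τ.symm u =
        fun a => u (τ a) := by
      intro u
      funext a
      have h6 := Equiv.piCongrLeft_apply_apply (fun _ : Fin g => ℝ) τ.symm u (τ a)
      rw [τ.symm_apply_apply] at h6
      exact h6
    have h7 : ∫⁻ u : {j // p j} → ℝ, Φ (fun a => u (τ a) + w a) = ∫⁻ B, Φ (B + w) := by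
      rw [← h4]
      refine lintegral_congr fun u => ?_
      rw [h5]
      rfl
    rw [h7]
    exact lintegral_add_right_eq_self Φ w
  refine (lintegral_mono key).trans ?_
  have hm3 : Measurable fun v : {j // ¬ p j} → ℝ => ∏ j, ENNReal.ofReal (qq (v j)) :=
    Finset.measurable_prod _ fun j _ => (qq_meas.comp (measurable_pi_apply j)).ennreal_ofReal
  rw [lintegral_mul_const _ hm3]
  refine mul_le_mul_left ?_ _
  refine (int_qq _).trans (ENNReal.ofReal_le_ofReal ?_)
  refine pow_le_pow_right₀ ?_ ?_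
  · have := Real.pi_gt_three
    linarith
  · have := Fintype.card_subtype_le (fun j : Fin n => ¬ p j)
    rwa [Fintype.card_fin] at this

/-! ### the counting functions -/

theorem WW_nonneg {g k X : ℕ} {T : ℝ} (B : Fin g → ℝ) : 0 ≤ WW g k X T B := by
  unfold WW
  exact Nat.cast_nonneg _

theorem VV_nonneg {n k X : ℕ} {T : ℝ} (γ : Fin n → ℝ) : 0 ≤ VV n k X T γ := by
  unfold VV
  exact Nat.cast_nonneg _

open Classical in
theorem WW_meas (g k X : ℕ) (T : ℝ) : Measurable (WW g k X T) := by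
  have h : WW g k X T = fun B => ∑ z ∈ Fintype.piFinset (fun _ : Fin g => Finset.Icc X (2 * X)),
      if Function.Injective z ∧ ∀ l ∈ Finset.Icc 1 k, |∑ a, B a * (z a : ℝ) ^ l| ≤ T then
        (1 : ℝ) else 0 := by
    funext B
    unfold WW
    rw [Finset.card_filter]
    push_cast
    refine Finset.sum_congr rfl fun z _ => ?_
    congr!
  rw [h]
  refine Finset.measurable_sum _ fun z _ => ?_
  refine Measurable.ite ?_ measurable_const measurable_const
  by_cases hz : Function.Injective z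
  · have h1 : {B : Fin g → ℝ | Function.Injective z ∧
        ∀ l ∈ Finset.Icc 1 k, |∑ a, B a * (z a : ℝ) ^ l| ≤ T} =
        ⋂ l ∈ Finset.Icc 1 k, {B : Fin g → ℝ | |∑ a, B a * (z a : ℝ) ^ l| ≤ T} := by
      ext B
      simp [hz]
    rw [h1]
    refine Finset.measurableSet_biInter _ fun l _ => ?_
    refine measurableSet_le ?_ measurable_const
    refine Measurable.comp (measurable_norm (α := ℝ)) ?_
    exact Finset.measurable_sum _ fun a _ => (measurable_pi_apply a).mul_const _
  · have h1 : {B : Fin g → ℝ | Function.Injective z ∧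
        ∀ l ∈ Finset.Icc 1 k, |∑ a, B a * (z a : ℝ) ^ l| ≤ T} = ∅ := by
      ext B
      simp [hz]
    rw [h1]
    exact MeasurableSet.empty

open Classical in
/-- the index set -/
noncomputable def SS (n m : ℕ) : Finset (Σ g : ℕ, (Fin n → Fin g)) :=
  (Finset.Icc 1 m).sigma fun g => univ.filter fun f : Fin n → Fin g => Function.Surjective f

theorem BB_pow {n g : ℕ} (f : Fin n → Fin g) (γ : Fin n → ℝ) (z : Fin g → ℕ) (l : ℕ) :
    ∑ a, BB f γ a * (z a : ℝ) ^ l = ∑ j, γ j * (z (f j) : ℝ) ^ l := by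
  unfold BB
  simp only [Finset.sum_mul, ite_mul, zero_mul]
  rw [Finset.sum_comm]
  refine Finset.sum_congr rfl fun j _ => ?_
  rw [Finset.sum_ite_eq, if_pos (mem_univ _)]

open Classical in
theorem VV_le {n m k X : ℕ} {T : ℝ} (γ : Fin n → ℝ) (hn : 1 ≤ n)
    (H : ∀ (g : ℕ) (f : Fin n → Fin g) (z : Fin g → ℕ), Function.Surjective f →
      Function.Injective z → (∀ a, X ≤ z a ∧ z a ≤ 2 * X) →
      (∀ l ∈ Finset.Icc 1 k, |∑ a, BB f γ a * (z a : ℝ) ^ l| ≤ T) → g ≤ m) :
    VV n k X T γ ≤ ∑ p ∈ SS n m, WW p.1 k X T (BB p.2 γ) := by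
  have hsub : ((Fintype.piFinset (fun _ : Fin n => Finset.Icc X (2 * X))).filter
      fun x : Fin n → ℕ => ∀ l ∈ Finset.Icc 1 k, |∑ j, γ j * (x j : ℝ) ^ l| ≤ T) ⊆
      (SS n m).biUnion fun p => (((Fintype.piFinset (fun _ : Fin p.1 => Finset.Icc X (2 * X))).filter
        fun z : Fin p.1 → ℕ => Function.Injective z ∧
          ∀ l ∈ Finset.Icc 1 k, |∑ a, BB p.2 γ a * (z a : ℝ) ^ l| ≤ T)).image
        fun z => fun j => z (p.2 j) := by
    intro x hx
    simp only [Finset.mem_filter, Fintype.mem_piFinset] at hx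
    obtain ⟨hx1, hx2⟩ := hx
    set A : Finset ℕ := univ.image x with hA
    set g := A.card with hg
    set io := A.orderIsoOfFin (k := g) hg.symm with hio
    have hmem : ∀ j, x j ∈ A := fun j => Finset.mem_image_of_mem _ (mem_univ _)
    set z : Fin g → ℕ := fun a => (io a : ℕ) with hz
    set f : Fin n → Fin g := fun j => io.symm ⟨x j, hmem j⟩ with hf
    have hzf : ∀ j, z (f j) = x j := by
      intro j
      simp only [hz, hf]
      rw [OrderIso.apply_symm_apply]
    have hzi : Function.Injective z := by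
      intro a b hab
      exact io.injective (Subtype.ext hab)
    have hfs : Function.Surjective f := by
      intro a
      have h1 : z a ∈ A := (io a).2
      rw [hA, Finset.mem_image] at h1
      obtain ⟨j, -, hj⟩ := h1
      refine ⟨j, hzi ?_⟩
      rw [hzf, hj]
    have hzr : ∀ a, X ≤ z a ∧ z a ≤ 2 * X := by
      intro a
      obtain ⟨j, hj⟩ := hfs a
      rw [← hj, hzf]
      exact Finset.mem_Icc.1 (hx1 j)
    have hzT : ∀ l ∈ Finset.Icc 1 k, |∑ a, BB f γ a * (z a : ℝ) ^ l| ≤ T := by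
      intro l hl
      rw [BB_pow]
      simp only [hzf]
      exact hx2 l hl
    have hgm := H g f z hfs hzi hzr hzT
    have hg1 : 1 ≤ g := by
      rw [hg, Nat.one_le_iff_ne_zero, Finset.card_ne_zero]
      exact ⟨x ⟨0, hn⟩, hmem _⟩
    rw [Finset.mem_biUnion]
    refine ⟨⟨g, f⟩, ?_, ?_⟩
    · unfold SS
      rw [Finset.mem_sigma, Finset.mem_Icc, Finset.mem_filter]
      exact ⟨⟨hg1, hgm⟩, mem_univ _, hfs⟩
    · rw [Finset.mem_image]
      refine ⟨z, ?_, funext hzf⟩
      simp only [Finset.mem_filter, Fintype.mem_piFinset]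
      exact ⟨fun a => Finset.mem_Icc.2 (hzr a), hzi, hzT⟩
  have h1 := (Finset.card_le_card hsub).trans Finset.card_biUnion_le
  have h2 : VV n k X T γ ≤ ((∑ p ∈ SS n m, ((((Fintype.piFinset
      (fun _ : Fin p.1 => Finset.Icc X (2 * X))).filter
        fun z : Fin p.1 → ℕ => Function.Injective z ∧
          ∀ l ∈ Finset.Icc 1 k, |∑ a, BB p.2 γ a * (z a : ℝ) ^ l| ≤ T)).image
        fun z => fun j => z (p.2 j)).card : ℕ) : ℝ) := by
    unfold VV
    exact_mod_cast h1
  refine h2.trans ?_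
  rw [Nat.cast_sum]
  refine Finset.sum_le_sum fun p _ => ?_
  unfold WW
  exact_mod_cast Finset.card_image_le

/-- the power of the sum -/
theorem sum_pow_le' {ι : Type} (S : Finset ι) (a : ι → ℝ) (ha : ∀ i, 0 ≤ a i) (s : ℕ) (hs : 1 ≤ s) :
    (∑ i ∈ S, a i) ^ s ≤ (S.card : ℝ) ^ s * ∑ i ∈ S, a i ^ s := by
  rcases S.eq_empty_or_nonempty with rfl | hS
  · simp only [Finset.sum_empty, mul_zero]
    rw [zero_pow (by omega)]
  · obtain ⟨i0, hi0, hmax⟩ := S.exists_max_image a hS
    have h1 : ∑ i ∈ S, a i ≤ S.card * a i0 := by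
      rw [← nsmul_eq_mul]
      exact Finset.sum_le_card_nsmul S a (a i0) hmax
    have h2 : 0 ≤ ∑ i ∈ S, a i := Finset.sum_nonneg fun i _ => ha i
    calc (∑ i ∈ S, a i) ^ s ≤ (S.card * a i0) ^ s := pow_le_pow_left₀ h2 h1 s
      _ = (S.card : ℝ) ^ s * a i0 ^ s := mul_pow _ _ _
      _ ≤ (S.card : ℝ) ^ s * ∑ i ∈ S, a i ^ s := by
          refine mul_le_mul_of_nonneg_left ?_ (by positivity)
          exact Finset.single_le_sum (f := fun i => a i ^ s) (fun i _ => pow_nonneg (ha i) s) hi0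

/-- no singletons -/
theorem two_mul_le {n g : ℕ} (f : Fin n → Fin g) (hf : Function.Surjective f) (γ : Fin n → ℝ)
    (b : ℝ) (hγ : ∀ j, b ≤ |γ j|) (hB : ∀ a, |BB f γ a| < b) : 2 * g ≤ n := by
  classical
  have h1 : (univ : Finset (Fin n)).card = ∑ a ∈ (univ : Finset (Fin g)),
      ((univ : Finset (Fin n)).filter fun j => f j = a).card :=
    Finset.card_eq_sum_card_fiberwise (fun j _ => Finset.mem_univ _)
  have h2 : ∀ a : Fin g, 2 ≤ ((univ : Finset (Fin n)).filter fun j => f j = a).card := by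
    intro a
    by_contra hlt
    rw [not_le] at hlt
    obtain ⟨j, hj⟩ := hf a
    have hj' : j ∈ (univ : Finset (Fin n)).filter fun j => f j = a := by
      rw [Finset.mem_filter]
      exact ⟨mem_univ _, hj⟩
    have h3 : ((univ : Finset (Fin n)).filter fun j => f j = a) = {j} := by
      refine Finset.eq_singleton_iff_unique_mem.2 ⟨hj', fun i hi => ?_⟩
      have h4 : ((univ : Finset (Fin n)).filter fun j => f j = a).card ≤ 1 := by omega
      exact Finset.card_le_one.1 h4 i hi j hj'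
    have h5 : BB f γ a = γ j := by
      unfold BB
      rw [← Finset.sum_filter, h3, Finset.sum_singleton]
    have h6 := hB a
    rw [h5] at h6
    exact absurd (hγ j) (not_le.2 h6)
  rw [Finset.card_univ, Fintype.card_fin] at h1
  have h3 : ∑ _a ∈ (univ : Finset (Fin g)), 2 ≤ ∑ a ∈ (univ : Finset (Fin g)),
      ((univ : Finset (Fin n)).filter fun j => f j = a).card := Finset.sum_le_sum fun a _ => h2 a
  rw [Finset.sum_const, Finset.card_univ, Fintype.card_fin, smul_eq_mul] at h3
  omega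

open Filter Topology in
theorem large (C δ : ℝ) (hδ : 0 < δ) : ∃ X0 : ℕ, ∀ X : ℕ, X0 ≤ X → C * Real.log X < (X : ℝ) ^ δ := by
  have h1 : (fun x : ℝ => C * Real.log x) =o[atTop] fun x : ℝ => x ^ δ :=
    (isLittleO_log_rpow_atTop hδ).const_mul_left C
  have h2 := h1.bound (c := 1 / 2) (by norm_num)
  have h3 : ∀ᶠ X : ℕ in atTop, ‖C * Real.log (X : ℝ)‖ ≤ 1 / 2 * ‖(X : ℝ) ^ δ‖ :=
    tendsto_natCast_atTop_atTop.eventually h2
  obtain ⟨X0, hX0⟩ := eventually_atTop.1 (h3.and (eventually_ge_atTop 1))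
  refine ⟨X0, fun X hX => ?_⟩
  obtain ⟨h4, h5⟩ := hX0 X hX
  have hX1 : (1 : ℝ) ≤ X := by exact_mod_cast h5
  have h6 : 0 < (X : ℝ) ^ δ := Real.rpow_pos_of_pos (by linarith) _
  rw [Real.norm_eq_abs, Real.norm_eq_abs, abs_of_pos h6] at h4
  have h7 := le_abs_self (C * Real.log (X : ℝ))
  linarith

theorem part (h : S_VD) : S_PART := by
  classical
  intro m k s hs hm hmk hs1 hhs
  set n := 2 * m with hn
  -- the constant of the Vandermonde bound
  have hVD : ∀ g : ℕ, ∃ C : ℝ, 0 < C ∧ (g ≤ k → ∀ (X : ℕ) (T : ℝ) (z : Fin g → ℕ) (B : Fin g → ℝ),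
      1 ≤ X → 0 ≤ T → (∀ a, X ≤ z a ∧ z a ≤ 2 * X) → Function.Injective z →
      (∀ l ∈ Finset.Icc 1 k, |∑ a, B a * (z a : ℝ) ^ l| ≤ T) →
      ∀ a, |B a| ≤ C * T * (X : ℝ) ^ (2 * (g : ℝ) - 2 - k)) := by
    intro g
    by_cases hg : g ≤ k
    · obtain ⟨C, hC, hC2⟩ := h g k hg
      exact ⟨C, hC, fun _ => hC2⟩
    · exact ⟨1, one_pos, fun hg' => absurd hg' hg⟩
  choose Cg hCg hCg2 using hVD
  set C1 : ℝ := ∑ g ∈ Finset.range (n + 1), Cg g with hC1
  have hC1g : ∀ g, g ≤ n → Cg g ≤ C1 := fun g hg =>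
    Finset.single_le_sum (fun i _ => (hCg i).le) (Finset.mem_range.2 (by omega))
  have hC10 : 0 ≤ C1 := (hCg 0).le.trans (hC1g 0 (Nat.zero_le _))
  set δ : ℝ := hs - (4 * (m : ℝ) - 2) with hδ
  obtain ⟨X0, hX0⟩ := large C1 δ (by rw [hδ]; linarith)
  -- the constants
  set K : ℕ := (SS n m).card with hK
  set C : ℝ := (K : ℝ) ^ s * (5 * Real.pi) ^ n * ((m : ℝ) ^ n) + 1 with hC
  refine ⟨C, by positivity, max X0 1, fun X hX => ?_⟩
  have hX1 : 1 ≤ X := (le_max_right _ _).trans hX
  have hXR : (1 : ℝ) ≤ X := by exact_mod_cast hX1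
  have hXpos : (0 : ℝ) < X := by linarith
  set T : ℝ := Real.log X with hT
  have hT0 : 0 ≤ T := Real.log_nonneg hXR
  have hbig := hX0 X ((le_max_left _ _).trans hX)
  -- the pointwise bound
  have hpt : ∀ γ : Fin n → ℝ, {γ : Fin n → ℝ | ∀ j, (X : ℝ) ^ (-(k : ℝ) + hs) ≤ |γ j|}.indicator
      (fun γ => ENNReal.ofReal ((∏ j, qq (γ j)) * VV n k X T γ ^ s)) γ ≤
      ∑ p ∈ SS n m, ENNReal.ofReal ((K : ℝ) ^ s) * ((∏ j, ENNReal.ofReal (qq (γ j))) *
        (fun B => ENNReal.ofReal (WW p.1 k X T B ^ s)) (BB p.2 γ)) := by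
    intro γ
    by_cases hγ : γ ∈ {γ : Fin n → ℝ | ∀ j, (X : ℝ) ^ (-(k : ℝ) + hs) ≤ |γ j|}
    · rw [Set.indicator_of_mem hγ]
      have hγ' : ∀ j, (X : ℝ) ^ (-(k : ℝ) + hs) ≤ |γ j| := hγ
      have h1 : VV n k X T γ ≤ ∑ p ∈ SS n m, WW p.1 k X T (BB p.2 γ) := by
        refine VV_le γ (by omega) ?_
        intro g f z hf hz hzr hzT
        have hgn : g ≤ n := by
          have := Fintype.card_le_of_surjective f hf
          rwa [Fintype.card_fin, Fintype.card_fin] at this
        have h2 := hCg2 g (hgn.trans hmk) X T z (BB f γ) hX1 hT0 hzr hz hzT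
        have h3 : 2 * g ≤ n := by
          refine two_mul_le f hf γ ((X : ℝ) ^ (-(k : ℝ) + hs)) hγ' fun a => ?_
          refine (h2 a).trans_lt ?_
          have e1 : (X : ℝ) ^ (2 * (g : ℝ) - 2 - k) ≤ (X : ℝ) ^ (4 * (m : ℝ) - 2 - k) := by
            refine Real.rpow_le_rpow_of_exponent_le hXR ?_
            have : (g : ℝ) ≤ 2 * m := by exact_mod_cast hgn
            linarith
          have e2 : (X : ℝ) ^ (-(k : ℝ) + hs) = (X : ℝ) ^ δ * (X : ℝ) ^ (4 * (m : ℝ) - 2 - k) := by
            rw [← Real.rpow_add hXpos]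
            congr 1
            rw [hδ]
            ring
          rw [e2]
          have e3 : 0 < (X : ℝ) ^ (4 * (m : ℝ) - 2 - k) := Real.rpow_pos_of_pos hXpos _
          calc Cg g * T * (X : ℝ) ^ (2 * (g : ℝ) - 2 - k) ≤
              C1 * T * (X : ℝ) ^ (4 * (m : ℝ) - 2 - k) := by
                refine mul_le_mul (mul_le_mul_of_nonneg_right (hC1g g hgn) hT0) e1
                  (Real.rpow_nonneg hXpos.le _) (mul_nonneg hC10 hT0)
            _ < (X : ℝ) ^ δ * (X : ℝ) ^ (4 * (m : ℝ) - 2 - k) :=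
                mul_lt_mul_of_pos_right hbig e3
        omega
      have h2 : VV n k X T γ ^ s ≤ (K : ℝ) ^ s * ∑ p ∈ SS n m, WW p.1 k X T (BB p.2 γ) ^ s :=
        (pow_le_pow_left₀ (VV_nonneg γ) h1 s).trans
          (sum_pow_le' (SS n m) (fun p => WW p.1 k X T (BB p.2 γ)) (fun p => WW_nonneg _) s hs1)
      have hq0 : 0 ≤ ∏ j, qq (γ j) := Finset.prod_nonneg fun j _ => qq_nonneg _
      calc ENNReal.ofReal ((∏ j, qq (γ j)) * VV n k X T γ ^ s) ≤
          ENNReal.ofReal (∑ p ∈ SS n m, (K : ℝ) ^ s * ((∏ j, qq (γ j)) *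
            WW p.1 k X T (BB p.2 γ) ^ s)) := by
            apply ENNReal.ofReal_le_ofReal
            refine (mul_le_mul_of_nonneg_left h2 hq0).trans (le_of_eq ?_)
            rw [← Finset.mul_sum, ← Finset.mul_sum]
            ring
        _ = _ := by
            rw [ENNReal.ofReal_sum_of_nonneg]
            · refine Finset.sum_congr rfl fun p _ => ?_
              rw [ENNReal.ofReal_mul (by positivity), ENNReal.ofReal_mul hq0,
                ENNReal.ofReal_prod_of_nonneg fun j _ => qq_nonneg _]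
            · intro p _
              have := WW_nonneg (g := p.1) (k := k) (X := X) (T := T) (BB p.2 γ)
              positivity
    · rw [Set.indicator_of_notMem hγ]
      exact bot_le
  refine (lintegral_mono hpt).trans ?_
  have hΦm : ∀ g : ℕ, Measurable fun B : Fin g → ℝ => ENNReal.ofReal (WW g k X T B ^ s) :=
    fun g => ((WW_meas g k X T).pow_const s).ennreal_ofReal
  have hFm : ∀ p : Σ g : ℕ, (Fin n → Fin g), Measurable fun γ : Fin n → ℝ =>
      (∏ j, ENNReal.ofReal (qq (γ j))) *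
        (fun B => ENNReal.ofReal (WW p.1 k X T B ^ s)) (BB p.2 γ) := by
    intro p
    refine Measurable.mul ?_ ((hΦm p.1).comp (BB_meas p.2))
    exact Finset.measurable_prod _ fun j _ => (qq_meas.comp (measurable_pi_apply j)).ennreal_ofReal
  rw [lintegral_finsetSum _ fun p _ => (hFm p).const_mul _]
  have hterm : ∀ p ∈ SS n m, ∫⁻ γ : Fin n → ℝ, ENNReal.ofReal ((K : ℝ) ^ s) *
      ((∏ j, ENNReal.ofReal (qq (γ j))) *
        (fun B => ENNReal.ofReal (WW p.1 k X T B ^ s)) (BB p.2 γ)) ≤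
      ENNReal.ofReal ((K : ℝ) ^ s * (5 * Real.pi) ^ n) *
        ∫⁻ B : Fin p.1 → ℝ, ENNReal.ofReal (WW p.1 k X T B ^ s) := by
    intro p hp
    rw [lintegral_const_mul _ (hFm p), ENNReal.ofReal_mul (by positivity), mul_assoc]
    refine mul_le_mul_right ?_ _
    unfold SS at hp
    rw [Finset.mem_sigma, Finset.mem_filter] at hp
    exact shift p.2 hp.2.2 _ (hΦm p.1)
  refine (Finset.sum_le_sum hterm).trans ?_
  unfold SS
  rw [Finset.sum_sigma, Finset.mul_sum]
  refine Finset.sum_le_sum fun g hg => ?_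
  change ∑ _f ∈ univ.filter (fun f : Fin n → Fin g => Function.Surjective f),
    (ENNReal.ofReal ((K : ℝ) ^ s * (5 * Real.pi) ^ n) *
      ∫⁻ B : Fin g → ℝ, ENNReal.ofReal (WW g k X T B ^ s)) ≤ _
  rw [Finset.sum_const, nsmul_eq_mul, ← mul_assoc]
  refine mul_le_mul_left ?_ _
  have hcard : ((univ.filter fun f : Fin n → Fin g => Function.Surjective f).card : ℝ) ≤ (m : ℝ) ^ n := by
    have h1 : (univ.filter fun f : Fin n → Fin g => Function.Surjective f).card ≤ g ^ n := by
      refine (Finset.card_le_univ _).trans (le_of_eq ?_)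
      rw [Fintype.card_fun, Fintype.card_fin, Fintype.card_fin]
    have h2 : g ^ n ≤ m ^ n := Nat.pow_le_pow_left (Finset.mem_Icc.1 hg).2 n
    exact_mod_cast h1.trans h2
  rw [← ENNReal.ofReal_natCast, ← ENNReal.ofReal_mul (Nat.cast_nonneg _)]
  apply ENNReal.ofReal_le_ofReal
  rw [hC]
  have h3 : 0 ≤ (K : ℝ) ^ s * (5 * Real.pi) ^ n := by positivity
  nlinarith [mul_le_mul_of_nonneg_right hcard h3]

end Pool.Agent.N570.KVPart
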