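import Pool.Agent.N604.MW.Stm10

/-!
# AD/ATRI (helper570): the Fourier transform of the triangle function
(the lemmas `int_sym` and `fejer` are copied from `Pool/Agent/H345R2/A2`)
-/

set_option autoImplicit false

namespace Pool.Agent.N570.AD.Atri

open MeasureTheory Filter Pool.Agent.N604.MW
open scoped FourierTransform

lemma int_sym (g : ℝ → ℝ) (hg : Continuous g) (μ : ℝ) :
    ∫ α in (-μ)..μ, g α = ∫ α in (0 : ℝ)..μ, (g α + g (-α)) := by
  rw [← intervalIntegral.integral_add_adjacent_intervals (b := 0) (hg.intervalIntegrable _ _)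
    (hg.intervalIntegrable _ _)]
  have h5 : ∫ α in (-μ)..0, g α = ∫ α in (0 : ℝ)..μ, g (-α) := by
    have := intervalIntegral.integral_comp_neg (a := (0 : ℝ)) (b := μ) g
    rw [neg_zero] at this
    exact this.symm
  have hg2 : Continuous fun α : ℝ => g (-α) := hg.comp continuous_neg
  rw [h5, intervalIntegral.integral_add (hg.intervalIntegrable _ _)
    (hg2.intervalIntegrable _ _)]
  ring

/-- the Fejér kernel -/
lemma fejer {x : ℝ} (hx : x ≠ 0) :
    ∫ β in (-1 : ℝ)..1, (1 - |β|) * Real.cos (2 * Real.pi * x * β) =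
      (Real.sin (Real.pi * x) / (Real.pi * x)) ^ 2 := by
  have hpi := Real.pi_pos
  rw [int_sym (fun β => (1 - |β|) * Real.cos (2 * Real.pi * x * β)) (by fun_prop) 1]
  have hk : 2 * Real.pi * x ≠ 0 := by positivity
  have h1 : ∀ β ∈ Set.uIcc (0 : ℝ) 1, (1 - |β|) * Real.cos (2 * Real.pi * x * β) +
      (1 - |-β|) * Real.cos (2 * Real.pi * x * -β) =
      2 * ((1 - β) * Real.cos (2 * Real.pi * x * β)) := by
    intro β hβ
    rw [Set.uIcc_of_le zero_le_one] at hβ
    rw [abs_neg, abs_of_nonneg hβ.1, mul_neg, Real.cos_neg]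
    ring
  rw [intervalIntegral.integral_congr h1]
  set k := 2 * Real.pi * x with hkdef
  have h2 : ∀ β ∈ Set.uIcc (0 : ℝ) 1, HasDerivAt (fun β : ℝ => 2 * ((1 - β) * Real.sin (k * β) / k -
      Real.cos (k * β) / k ^ 2)) (2 * ((1 - β) * Real.cos (k * β))) β := by
    intro β _
    have h3 : HasDerivAt (fun β : ℝ => k * β) k β := by
      simpa using (hasDerivAt_id β).const_mul k
    have h4 := h3.sin
    have h5 := h3.cos
    have h6 : HasDerivAt (fun β : ℝ => 1 - β) (-1) β := by
      simpa using (hasDerivAt_id β).const_sub 1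
    have h7 := (((h6.mul h4).div_const k).sub (h5.div_const (k ^ 2))).const_mul 2
    refine h7.congr_deriv ?_
    field_simp
    ring
  rw [intervalIntegral.integral_eq_sub_of_hasDerivAt h2
    ((by fun_prop : Continuous fun β : ℝ => 2 * ((1 - β) * Real.cos (k * β))).intervalIntegrable _ _)]
  have h8 : Real.cos (k * 1) = 1 - 2 * Real.sin (Real.pi * x) ^ 2 := by
    have : k * 1 = 2 * (Real.pi * x) := by rw [hkdef]; ring
    rw [this, Real.cos_two_mul, Real.cos_sq']
    ring
  rw [h8]
  simp only [mul_zero, Real.sin_zero, Real.cos_zero, sub_self, zero_mul, zero_div, sub_zero, mul_one]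
  rw [hkdef]
  field_simp
  ring

lemma Lam_zero {u : ℝ} (h : 1 ≤ |u|) : Lam u = 0 := by
  unfold Lam
  apply max_eq_left
  linarith

lemma Lam_in {u : ℝ} (h : |u| ≤ 1) : Lam u = 1 - |u| := by
  unfold Lam
  apply max_eq_right
  linarith

lemma Lam_even (u : ℝ) : Lam (-u) = Lam u := by
  unfold Lam
  rw [abs_neg]

lemma Lam_cont : Continuous Lam := by
  unfold Lam; fun_prop

lemma Lam_int {g : ℝ → ℝ} (hg : Continuous g) : Integrable (fun u => Lam u * g u) := by
  apply (Lam_cont.mul hg).integrable_of_hasCompactSupport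
  apply HasCompactSupport.intro (isCompact_Icc (a := (-1 : ℝ)) (b := 1))
  intro x hx
  have : 1 ≤ |x| := by
    by_contra h
    push Not at h
    obtain ⟨h3, h4⟩ := abs_lt.1 h
    exact hx ⟨h3.le, h4.le⟩
  show Lam x * g x = 0
  rw [Lam_zero this, zero_mul]

lemma KK_int (x : ℝ) :
    ∫ u, Lam u * Real.cos (2 * Real.pi * x * u) =
      ∫ β in (-1 : ℝ)..1, (1 - |β|) * Real.cos (2 * Real.pi * x * β) := by
  have h1 : ∫ u, Lam u * Real.cos (2 * Real.pi * x * u) =
      ∫ u in (-1 : ℝ)..1, Lam u * Real.cos (2 * Real.pi * x * u) := by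
    symm
    apply intervalIntegral.integral_eq_integral_of_support_subset
    intro α hα
    by_contra h
    apply hα
    have : 1 ≤ |α| := by
      by_contra h2
      push Not at h2
      obtain ⟨h3, h4⟩ := abs_lt.1 h2
      exact h ⟨h3, h4.le⟩
    show Lam α * Real.cos (2 * Real.pi * x * α) = 0
    rw [Lam_zero this, zero_mul]
  rw [h1]
  refine intervalIntegral.integral_congr fun β hβ => ?_
  rw [Set.uIcc_of_le (by norm_num)] at hβ
  have h4 : |β| ≤ 1 := abs_le.2 hβ
  show Lam β * _ = _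
  rw [Lam_in h4]

lemma Lam_cos (x : ℝ) : ∫ u, Lam u * Real.cos (2 * Real.pi * x * u) = N604.MW.sq x := by
  rw [KK_int]
  rcases eq_or_ne x 0 with h | h
  · subst h
    have h2 : ∀ β ∈ Set.uIcc (-1 : ℝ) 1, (1 - |β|) * Real.cos (2 * Real.pi * 0 * β) =
        1 - |β| := by
      intro β _
      simp
    rw [intervalIntegral.integral_congr h2, int_sym (fun β => 1 - |β|) (by fun_prop) 1]
    have h3 : ∀ β ∈ Set.uIcc (0 : ℝ) 1, (1 - |β|) + (1 - |-β|) = 2 - 2 * β := by
      intro β hβ
      rw [Set.uIcc_of_le zero_le_one] at hβ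
      rw [abs_neg, abs_of_nonneg hβ.1]
      ring
    rw [intervalIntegral.integral_congr h3]
    rw [intervalIntegral.integral_sub
      ((by fun_prop : Continuous fun _ : ℝ => (2 : ℝ)).intervalIntegrable _ _)
      ((by fun_prop : Continuous fun β : ℝ => 2 * β).intervalIntegrable _ _),
      intervalIntegral.integral_const_mul, integral_id]
    unfold N604.MW.sq
    simp
    norm_num
  · rw [fejer h]
    unfold N604.MW.sq
    rw [Real.sinc_of_ne_zero (mul_ne_zero Real.pi_ne_zero h)]

lemma Lam_sin (x : ℝ) : ∫ u, Lam u * Real.sin (2 * Real.pi * x * u) = 0 := by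
  have h1 := integral_neg_eq_self (fun u => Lam u * Real.sin (2 * Real.pi * x * u))
    (volume : Measure ℝ)
  have h2 : (fun u => Lam (-u) * Real.sin (2 * Real.pi * x * (-u))) =
      fun u => -(Lam u * Real.sin (2 * Real.pi * x * u)) := by
    funext u
    rw [Lam_even]
    have : 2 * Real.pi * x * (-u) = -(2 * Real.pi * x * u) := by ring
    rw [this, Real.sin_neg]
    ring
  have h3 : ∫ u, Lam (-u) * Real.sin (2 * Real.pi * x * (-u)) =
      -∫ u, Lam u * Real.sin (2 * Real.pi * x * u) := by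
    rw [h2, integral_neg]
  have h4 : ∫ u, Lam (-u) * Real.sin (2 * Real.pi * x * (-u)) =
      ∫ u, Lam u * Real.sin (2 * Real.pi * x * u) := h1
  linarith

lemma fourier_Lam : 𝓕 (fun u : ℝ => ((Lam u : ℝ) : ℂ)) = fun t : ℝ => ((N604.MW.sq t : ℝ) : ℂ) := by
  funext t
  rw [Real.fourier_eq']
  have h1 : ∀ v : ℝ, Complex.exp (↑(-2 * Real.pi * inner ℝ v t) * Complex.I) •
      ((Lam v : ℝ) : ℂ) = ((Lam v * Real.cos (2 * Real.pi * t * v) : ℝ) : ℂ) -
        ((Lam v * Real.sin (2 * Real.pi * t * v) : ℝ) : ℂ) * Complex.I := by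
    intro v
    have h2 : (-2 * Real.pi * inner ℝ v t : ℝ) = -(2 * Real.pi * t * v) := by
      simp [inner]
      ring
    rw [h2, smul_eq_mul, Complex.exp_mul_I, ← Complex.ofReal_cos, ← Complex.ofReal_sin,
      Real.cos_neg, Real.sin_neg]
    push_cast
    ring
  rw [integral_congr_ae (Eventually.of_forall h1)]
  have hc : Continuous fun v : ℝ => Real.cos (2 * Real.pi * t * v) := by fun_prop
  have hs : Continuous fun v : ℝ => Real.sin (2 * Real.pi * t * v) := by fun_prop
  rw [integral_sub (Lam_int hc).ofReal ((Lam_int hs).ofReal.mul_const _), integral_mul_const,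
    integral_complex_ofReal, integral_complex_ofReal, Lam_cos, Lam_sin]
  simp

lemma sq_le_inv (t : ℝ) (ht : t ≠ 0) : N604.MW.sq t ≤ 1 / t ^ 2 := by
  unfold N604.MW.sq
  rw [Real.sinc_of_ne_zero (mul_ne_zero Real.pi_ne_zero ht), div_pow]
  have h1 : Real.sin (Real.pi * t) ^ 2 ≤ 1 := Real.sin_sq_le_one _
  have ht2 : 0 < t ^ 2 := by positivity
  have h3 : t ^ 2 ≤ (Real.pi * t) ^ 2 := by
    rw [mul_pow]
    have h2 : (1 : ℝ) ≤ Real.pi ^ 2 := by nlinarith [Real.pi_gt_three]
    nlinarith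
  calc Real.sin (Real.pi * t) ^ 2 / (Real.pi * t) ^ 2 ≤ 1 / (Real.pi * t) ^ 2 := by gcongr
    _ ≤ 1 / t ^ 2 := one_div_le_one_div_of_le ht2 h3

lemma sq_bd (t : ℝ) : 0 ≤ N604.MW.sq t ∧ N604.MW.sq t ≤ 1 := by
  refine ⟨sq_nonneg _, ?_⟩
  unfold N604.MW.sq
  rw [← sq_abs]
  exact pow_le_one₀ (abs_nonneg _) (Real.abs_sinc_le_one _)

lemma sq_int : Integrable N604.MW.sq := by
  have hc : Continuous N604.MW.sq := by
    unfold N604.MW.sq
    exact (Real.continuous_sinc.comp (continuous_const.mul continuous_id)).pow 2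
  have h1 : Integrable (fun t : ℝ => 2 * (1 + t ^ 2)⁻¹) := integrable_inv_one_add_sq.const_mul 2
  refine h1.mono' hc.aestronglyMeasurable (Eventually.of_forall fun t => ?_)
  rw [Real.norm_eq_abs, abs_of_nonneg (sq_bd t).1]
  have h2 : (0:ℝ) < 1 + t ^ 2 := by positivity
  rw [← div_eq_mul_inv, le_div_iff₀ h2]
  rcases le_or_gt (t ^ 2) 1 with h | h
  · have := sq_bd t
    nlinarith [mul_le_mul_of_nonneg_left h this.1]
  · have ht : t ≠ 0 := by
      rintro rfl
      norm_num at h
    have h3 := sq_le_inv t ht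
    have ht2 : 0 < t ^ 2 := by positivity
    rw [le_div_iff₀ ht2] at h3
    have := sq_bd t
    nlinarith

/-- **ATRI** -/
theorem atri : S_ATRI := by
  refine ⟨sq_int, ?_, ?_⟩
  · intro t
    refine ⟨(sq_bd t).1, (sq_bd t).2, ?_⟩
    unfold qq
    split_ifs with h
    · exact (sq_bd t).2
    · apply sq_le_inv
      rintro rfl
      apply h
      simp
  · intro u
    have hc : Continuous (fun u : ℝ => ((Lam u : ℝ) : ℂ)) := Complex.continuous_ofReal.comp Lam_cont
    have hi : Integrable (fun u : ℝ => ((Lam u : ℝ) : ℂ)) := by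
      have := Lam_int (g := fun _ => 1) continuous_const
      simp only [mul_one] at this
      exact this.ofReal
    have h1 := hc.fourierInv_fourier_eq hi (by rw [fourier_Lam]; exact sq_int.ofReal)
    have h2 := congrFun h1 u
    rw [fourier_Lam, Real.fourierInv_eq'] at h2
    rw [← h2]
    refine integral_congr_ae (Eventually.of_forall fun v => ?_)
    show Complex.exp (↑(2 * Real.pi * inner ℝ v u) * Complex.I) • ((N604.MW.sq v : ℝ) : ℂ) = _
    rw [smul_eq_mul, mul_comm]
    unfold e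
    congr 3
    simp [inner]
    ring

end Pool.Agent.N570.AD.Atri
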