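import Pool.Agent.N795.BV.Stm

/-!
# BV/PHIB (helper570): `log |1 - u|` to second order
-/

set_option autoImplicit false

namespace Pool.Agent.N795.BV

theorem phib : S_PHIB := by
  intro u hu
  have h0 : 0 ≤ ‖u‖ := norm_nonneg u
  have hn : ‖-u‖ < 1 := by
    rw [norm_neg]
    linarith
  have h1 := Complex.norm_log_sub_logTaylor_le 2 hn
  have h2 : Complex.logTaylor (2 + 1) (-u) = -u - u ^ 2 / 2 := by
    simp [Complex.logTaylor_succ, Complex.logTaylor_zero]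
    ring
  rw [h2, norm_neg] at h1
  have h3 : (Complex.log (1 + -u) - (-u - u ^ 2 / 2)).re =
      Real.log ‖1 - u‖ + (u.re + (u ^ 2).re / 2) := by
    have e1 : (u ^ 2 / 2 : ℂ).re = (u ^ 2).re / 2 := by
      have : (u ^ 2 / 2 : ℂ) = (u ^ 2) / ((2 : ℝ) : ℂ) := by norm_num
      rw [this, Complex.div_ofReal_re]
    rw [Complex.sub_re, Complex.sub_re, Complex.neg_re, Complex.log_re, e1, ← sub_eq_add_neg]
    ring
  have h4 : Real.log ‖1 - u‖ + (u.re + (u ^ 2).re / 2) ≤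
      ‖u‖ ^ (2 + 1) * (1 - ‖u‖)⁻¹ / ((2 : ℕ) + 1) := by
    rw [← h3]
    exact (Complex.re_le_norm _).trans h1
  have h5 : (1 - ‖u‖)⁻¹ ≤ 2 := by
    rw [inv_eq_one_div, div_le_iff₀ (by linarith)]
    linarith
  have h6 : ‖u‖ ^ (2 + 1) * (1 - ‖u‖)⁻¹ / ((2 : ℕ) + 1) ≤ ‖u‖ ^ 3 := by
    have h7 : 0 ≤ ‖u‖ ^ 3 := by positivity
    rw [div_le_iff₀ (by positivity)]
    push_cast
    calc ‖u‖ ^ (2 + 1) * (1 - ‖u‖)⁻¹ ≤ ‖u‖ ^ 3 * 2 := mul_le_mul_of_nonneg_left h5 h7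
      _ ≤ ‖u‖ ^ 3 * (2 + 1) := by linarith
  linarith

end Pool.Agent.N795.BV
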