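import Pool.Agent.N570.QP_WINJ2

/-!
# Project QP (helper906), WINJ (helper570): the window argument with prescribed gains

Adapted from `Pool/Agent/N700/KG_WINK.lean` (helper700, helper878, helper327, helper407).
-/

set_option autoImplicit false
set_option linter.all false

namespace Pool.Agent.N570.QP

open NumberField IsDedekindDomain Finset Pool.Agent.H691R3 Pool.Agent.W223.AK
open Pool.Agent.N906.NT (Cx cst)
open Pool.Agent.N906.KG
open Pool.Agent.N327.NTW (inv1 inv2)

section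

variable {K : Type} [Field K] [NumberField K] {n : ℕ}

/-- the weight -/
noncomputable def wt (β : Fin n → ℝ) (u : ℝ) (D : Fin n → Idl K) : ℝ := ∑ i, β i * u * gg (D i)

/-- the upper bounds for the tilted sums -/
lemma tilt (h : S_GUPK K) (e : ℝ) (he : 0 < e) : ∃ u₀ : ℝ, 0 < u₀ ∧
    ∀ (n : ℕ) (β : Fin n → ℝ) (u B : ℝ), (∀ i, 0 < β i) → (∀ i, β i ≤ 1) → 0 < u → 2 * u < u₀ →
      0 < B → (∀ s : ℝ, 0 < s → s ≤ 2 → 1 / (s * u * Real.log (1 / (s * u))) ≤ B / s) →
      ∀ F : Finset (Fin n → Idl K), (∀ D ∈ F, PCop D ∧ Sq D) →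
      (∀ (j : Fin n) (η κ : ℝ), -1 < η → η ≤ 1 → 1 / (1 + η) ≤ 1 + κ →
        ∑ D ∈ F, Real.exp (-(wt β u D + η * (β j * u * gg (D j))) - tr D) ≤
          Real.exp ((1 + e) * (∑ i, B / β i + κ * (B / β j)))) ∧
      (∑ D ∈ F, Real.exp (-(wt β u D) - (tr D - 1 / 2 * ∑ i, β i * u * rl (D i))) ≤
          Real.exp ((1 + e) * ∑ i, B / β i)) ∧
      (∑ D ∈ F, 2 ^ om D * Real.exp (-(wt β u D) - tr D) ≤
          Real.exp ((1 + e) * 2 * ∑ i, B / β i)) := by
  obtain ⟨u1, hu1, -, hU1⟩ := prod_le h 1 0 e one_pos le_rfl (by norm_num) he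
  obtain ⟨u3, hu3, -, hU3⟩ := prod_le h 1 (1 / 2) e one_pos (by norm_num) le_rfl he
  obtain ⟨u4, hu4, -, hU4⟩ := prod_le h 2 0 e two_pos le_rfl (by norm_num) he
  refine ⟨min u1 (min u3 u4), lt_min hu1 (lt_min hu3 hu4), ?_⟩
  intro n β u B hβ hβ1 hu huu hB hgen F hF
  rw [lt_min_iff, lt_min_iff] at huu
  obtain ⟨g1, g3, g4⟩ := huu
  have hβu : ∀ i, 0 < β i * u := fun i => mul_pos (hβ i) hu
  have hβu2 : ∀ i, β i * u ≤ u := fun i => by
    have := hβ1 i
    nlinarith
  have hsum : ∑ i, 1 / (β i * u * Real.log (1 / (β i * u))) ≤ ∑ i, B / β i :=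
    sum_le_sum fun i _ => hgen (β i) (hβ i) (by linarith [hβ1 i])
  refine ⟨?_, ?_, ?_⟩
  · intro j η κ hη hη1 hκ
    have b1 := hU1 n (fun i => tw β j η i * u) (fun i => mul_pos (tw_pos hβ j hη i) hu)
      (fun i => by
        have := tw_le hβ hβ1 j hη hη1 i
        nlinarith) F hF
    have b2 := tw_gen hβ hβ1 j hη hη1 hκ hB hgen
    have b3 : ∑ D ∈ F, Real.exp (-(wt β u D + η * (β j * u * gg (D j))) - tr D) =
        ∑ D ∈ F, 1 ^ om D * Real.exp (-(∑ i, (tw β j η i * u) * gg (D i)) -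
          ∑ i, (1 - 0 * (tw β j η i * u)) * rl (D i)) := by
      refine sum_congr rfl fun D hD => ?_
      rw [one_pow, one_mul, tw_sum, tr_eq (hF D hD).1]
      simp only [zero_mul, sub_zero, one_mul]
      rfl
    rw [b3]
    refine b1.trans (Real.exp_le_exp.2 ?_)
    rw [mul_one]
    exact mul_le_mul_of_nonneg_left b2 (by linarith)
  · have b1 := hU3 n (fun i => β i * u) hβu (fun i => by linarith [hβu2 i]) F hF
    have b3 : ∑ D ∈ F, Real.exp (-(wt β u D) - (tr D - 1 / 2 * ∑ i, β i * u * rl (D i))) =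
        ∑ D ∈ F, 1 ^ om D * Real.exp (-(∑ i, (β i * u) * gg (D i)) -
          ∑ i, (1 - 1 / 2 * (β i * u)) * rl (D i)) := by
      refine sum_congr rfl fun D hD => ?_
      rw [one_pow, one_mul, tr_eq (hF D hD).1, mul_sum, ← sum_sub_distrib]
      congr 2
      exact sum_congr rfl fun i _ => by ring
    rw [b3]
    refine b1.trans (Real.exp_le_exp.2 ?_)
    rw [mul_one]
    exact mul_le_mul_of_nonneg_left hsum (by linarith)
  · have b1 := hU4 n (fun i => β i * u) hβu (fun i => by linarith [hβu2 i]) F hF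
    have b3 : ∑ D ∈ F, (2 : ℝ) ^ om D * Real.exp (-(wt β u D) - tr D) =
        ∑ D ∈ F, 2 ^ om D * Real.exp (-(∑ i, (β i * u) * gg (D i)) -
          ∑ i, (1 - 0 * (β i * u)) * rl (D i)) := by
      refine sum_congr rfl fun D hD => ?_
      rw [tr_eq (hF D hD).1]
      simp only [zero_mul, sub_zero, one_mul]
      rfl
    rw [b3]
    refine b1.trans (Real.exp_le_exp.2 ?_)
    exact mul_le_mul_of_nonneg_left hsum (by linarith)

end

/-- the case of positive `ζ` -/
theorem winj_pos (K : Type) [Field K] [NumberField K] (h1 : S_GUPK K) (h2 : S_GLOWJ K) (n : ℕ)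
    (hn : 0 < n) (ζ : Fin n → ℝ) (ε c : ℝ) (hζ : ∀ i, 0 < ζ i) (hε : 0 < ε) (hε1 : ε < 1)
    (hc : 0 < c) : ∃ Z₀ : ℝ, 1 < Z₀ ∧ ∀ Z : ℝ, Z₀ ≤ Z → ∃ F : Finset (Fin n → Idl K),
    (∀ D ∈ F, (∀ i j, i ≠ j → Cop (D i) (D j)) ∧ Sq D ∧ (∀ v ∈ sp D, √Z < Nv v) ∧
      (∀ i, len (D i) - rl (D i) ≤ ζ i * Z) ∧ tr D ≤ ε * Z ∧ rs D ≤ c) ∧
    Real.exp ((1 - ε) * ∑ i, √(8 * ζ i * Z / Real.log Z)) ≤ ∑ D ∈ F, Real.exp (-tr D) := by
  classical
  have hne : Nonempty (Fin n) := ⟨⟨0, hn⟩⟩
  obtain ⟨x, hxd⟩ : ∃ x : ℝ, x = ε / 40 := ⟨_, rfl⟩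
  have hx0 : 0 < x := by rw [hxd]; positivity
  have hx1 : x ≤ 1 / 40 := by rw [hxd]; linarith
  -- the smallest ζ
  obtain ⟨i₀, hi₀⟩ := Finite.exists_min ζ
  obtain ⟨z, hz0, hz1, hzζ⟩ : ∃ z : ℝ, 0 < z ∧ z ≤ 1 ∧ ∀ i, z ≤ ζ i :=
    ⟨min 1 (ζ i₀), lt_min one_pos (hζ i₀), min_le_left _ _,
      fun i => (min_le_right _ _).trans (hi₀ i)⟩
  obtain ⟨β, hβd⟩ : ∃ β : Fin n → ℝ, ∀ i, β i = √(z / ζ i) := ⟨_, fun _ => rfl⟩
  have hβ : ∀ i, 0 < β i := fun i => by
    rw [hβd]
    exact Real.sqrt_pos.2 (div_pos hz0 (hζ i))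
  have hβ1 : ∀ i, β i ≤ 1 := fun i => by
    rw [hβd, Real.sqrt_le_one]
    exact (div_le_one (hζ i)).2 (hzζ i)
  have hβ2 : ∀ i, β i * ζ i = z / β i := by
    intro i
    rw [eq_div_iff (hβ i).ne']
    have h3 : β i * β i = z / ζ i := by
      rw [hβd]
      exact Real.mul_self_sqrt (div_pos hz0 (hζ i)).le
    calc β i * ζ i * β i = (β i * β i) * ζ i := by ring
      _ = z := by rw [h3, div_mul_cancel₀ _ (hζ i).ne']
  obtain ⟨i₁, hi₁⟩ := Finite.exists_min β
  obtain ⟨b, hbd⟩ : ∃ b, b = β i₁ := ⟨_, rfl⟩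
  have hb0 : 0 < b := by rw [hbd]; exact hβ i₁
  have hb1 : b ≤ 1 := by rw [hbd]; exact hβ1 i₁
  have hbβ : ∀ i, b ≤ β i := by rw [hbd]; exact hi₁
  obtain ⟨σ, hσd⟩ : ∃ σ : ℝ, σ = ∑ i, 1 / β i := ⟨_, rfl⟩
  have hρ : ∀ i, 1 ≤ 1 / β i := fun i => by
    rw [le_div_iff₀ (hβ i)]
    linarith [hβ1 i]
  have hσ1 : 1 ≤ σ := by
    rw [hσd]
    exact (hρ i₀).trans (single_le_sum (f := fun i => 1 / β i)
      (fun i _ => (zero_le_one.trans (hρ i))) (mem_univ i₀))
  have hσ0 : 0 < σ := by linarith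
  obtain ⟨e, hed⟩ : ∃ e : ℝ, e = x ^ 2 * b / (9 * σ) := ⟨_, rfl⟩
  have he : 0 < e := by rw [hed]; positivity
  have heσ : 9 * (e * σ) = x ^ 2 * b := by rw [hed]; field_simp
  have hx2 : x ^ 2 ≤ x / 40 := by nlinarith
  have he1 : e ≤ x / 360 := by
    have g1 : e ≤ e * σ := by nlinarith
    have g2 : x ^ 2 * b ≤ x ^ 2 := by nlinarith [sq_nonneg x]
    linarith
  obtain ⟨a, had⟩ : ∃ a : ℝ, a = 1 / (1 + 7 * x) := ⟨_, rfl⟩
  have ha0 : 0 < a := by rw [had]; positivity
  have ha1 : a ≤ 1 := by rw [had, div_le_one (by positivity)]; linarith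
  have hainv : 1 / a = 1 + 7 * x := by rw [had, one_div_one_div]
  obtain ⟨u1, hu1, hU⟩ := tilt h1 e he
  obtain ⟨u5, hu5, -, hU5⟩ := h2 n β e hβ he (by linarith)
  have hzp : 0 < z ^ (1 / e) := Real.rpow_pos_of_pos hz0 _
  obtain ⟨m, hm0, hm1, hm5, hmz⟩ : ∃ m : ℝ, 0 < m ∧ m ≤ u1 ∧ m ≤ u5 ∧ m ≤ z ^ (1 / e) := by
    refine ⟨min u1 (min u5 (z ^ (1 / e))), ?_, ?_, ?_, ?_⟩
    · simp only [lt_min_iff]
      exact ⟨hu1, hu5, hzp⟩
    · exact min_le_left _ _
    · exact (min_le_right _ _).trans (min_le_left _ _)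
    · exact (min_le_right _ _).trans (min_le_right _ _)
  obtain ⟨Y₀, hY₀, hY⟩ := choice1 a (e / 2) (c / σ) (4 * (n + 1) / e) m ha0 ha1 (by linarith)
    (by linarith) hm0 (by positivity)
  refine ⟨Y₀ / z, ?_, fun Z hZZ => ?_⟩
  · rw [lt_div_iff₀ hz0]
    linarith
  have hYZ : Y₀ ≤ z * Z := (div_le_iff₀' hz0).1 hZZ
  have hZ1 : 1 < z * Z := hY₀.trans_le hYZ
  have hZp : 0 < Z := by
    by_contra h
    rw [not_lt] at h
    nlinarith
  have hZ1' : 1 < Z := by nlinarith
  obtain ⟨u, B, hu0, hu1', hum, hB0, hMB, huB, hgen, hG, hsq, hcB, hW⟩ := hY (z * Z) hYZ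
  have huZ : u * (z * Z) = B * (1 + 7 * x) := by
    rw [← hainv, mul_one_div, eq_div_iff ha0.ne', ← huB]
    ring
  obtain ⟨S, hSd⟩ : ∃ S : ℝ, S = B * σ := ⟨_, rfl⟩
  have hS : ∑ i, B / β i = S := by
    rw [hSd, hσd, mul_sum]
    exact sum_congr rfl fun i _ => by rw [mul_one_div]
  have hBS : B ≤ S := by rw [hSd]; nlinarith
  have hS0 : 0 < S := by linarith
  have heS : 9 * (e * S) = x ^ 2 * b * B := by rw [hSd, ← heσ]; ring
  have hBβ : ∀ i, B ≤ B / β i := fun i => by
    rw [le_div_iff₀ (hβ i)]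
    have := hβ1 i
    nlinarith
  have hBβS : ∀ i, B / β i ≤ S := fun i => by
    rw [← hS]
    exact single_le_sum (f := fun i => B / β i) (fun i _ => hB0.le.trans (hBβ i)) (mem_univ i)
  have heSj : ∀ i, 9 * (e * S) ≤ x ^ 2 * (B / β i) := fun i => by
    rw [heS]
    have g1 : x ^ 2 * b * B ≤ x ^ 2 * 1 * (B / β i) := by
      gcongr
      exact hBβ i
    linarith
  have hζu : ∀ i, β i * u * (ζ i * Z) = B / β i * (1 + 7 * x) := by
    intro i
    have g1 : β i * u * (ζ i * Z) = (β i * ζ i) * (u * Z) := by ring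
    rw [g1, hβ2]
    have g2 : z / β i * (u * Z) = (u * (z * Z)) / β i := by ring
    rw [g2, huZ]
    ring
  have hMS : 12 * ((n : ℝ) + 1) ≤ 3 * (e * S) := by
    rw [div_le_iff₀ he] at hMB
    nlinarith
  -- the main sum
  obtain ⟨F₀, hF₀, hF₀s⟩ := hU5 u hu0 (by linarith)
  have hmain : Real.exp ((1 - 4 * e) * S) ≤ ∑ D ∈ F₀, Real.exp (-(wt β u D) - tr D) := by
    refine le_trans (Real.exp_le_exp.2 ?_) hF₀s
    have g1 : ∑ i, 1 / (β i * (u * Real.log (1 / u))) = σ * (1 / (u * Real.log (1 / u))) := by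
      rw [hσd, sum_mul]
      exact sum_congr rfl fun i _ => by rw [div_mul_div_comm, mul_one]
    rw [g1]
    have g2 : (1 - e / 2) * S ≤ σ * (1 / (u * Real.log (1 / u))) := by
      have g3 := mul_le_mul_of_nonneg_left hG hσ0.le
      have g4 : σ * ((1 - e / 2) * B) = (1 - e / 2) * S := by rw [hSd]; ring
      rw [← g4]
      exact g3
    refine le_trans ?_ (mul_le_mul_of_nonneg_left g2 (by linarith))
    exact num6 he (by linarith) hS0
  have hPC : ∀ D ∈ F₀, PCop D ∧ Sq D := fun D hD => ⟨(hF₀ D hD).1, (hF₀ D hD).2.1⟩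
  obtain ⟨b1, b3, b4⟩ := hU n β u B hβ hβ1 hu0 (by linarith) hB0 hgen F₀ hPC
  rw [hS] at b1 b3 b4
  have i1 := inv1 1 x x le_rfl hx0 (by norm_num) (by linarith)
  have i2 := inv2 1 x x le_rfl hx0 (by norm_num) (by linarith)
  rw [pow_one] at i1 i2
  have d1 : ∀ j, Real.exp (-(x * (B / β j * (1 + 7 * x)))) *
      ∑ D ∈ F₀, Real.exp (-(wt β u D + (-x) * (β j * u * gg (D j))) - tr D) ≤
      Real.exp ((1 - 7 * e) * S) := by
    intro j
    have g1 := b1 j (-x) (x + 6 * x ^ 2) (by linarith) (by linarith) (by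
      rw [← sub_eq_add_neg]
      linarith)
    refine (mul_le_mul_of_nonneg_left g1 (Real.exp_pos _).le).trans ?_
    rw [← Real.exp_add]
    apply Real.exp_le_exp.2
    exact num1 hx0 hx1 he (hB0.trans_le (hBβ j)) (heSj j) (hBβS j)
  have d2 : ∀ j, Real.exp (x * ((1 - 12 * x) * (B / β j * (1 + 7 * x)))) *
      ∑ D ∈ F₀, Real.exp (-(wt β u D + x * (β j * u * gg (D j))) - tr D) ≤
      Real.exp ((1 - 7 * e) * S) := by
    intro j
    have g1 := b1 j x (-x + 2 * x ^ 2) (by linarith) (by linarith) (by linarith)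
    refine (mul_le_mul_of_nonneg_left g1 (Real.exp_pos _).le).trans ?_
    rw [← Real.exp_add]
    apply Real.exp_le_exp.2
    exact num2 hx0 hx1 he hS0 (hB0.trans_le (hBβ j)) (heSj j)
  have d3 : Real.exp (-(b * u / 2 * (ε * Z))) *
      ∑ D ∈ F₀, Real.exp (-(wt β u D) - (tr D - 1 / 2 * ∑ i, β i * u * rl (D i))) ≤
      Real.exp ((1 - 7 * e) * S) := by
    refine (mul_le_mul_of_nonneg_left b3 (Real.exp_pos _).le).trans ?_
    rw [← Real.exp_add]
    apply Real.exp_le_exp.2
    have g1 : B ≤ u * Z := by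
      have g0 : z * Z ≤ Z := by
        have := mul_le_mul_of_nonneg_right hz1 hZp.le
        linarith
      have g2 : u * (z * Z) ≤ u * Z := mul_le_mul_of_nonneg_left g0 hu0.le
      rw [huZ] at g2
      have g3 : 0 < B * x := mul_pos hB0 hx0
      linarith
    have g3 : b * u / 2 * (ε * Z) = 20 * x * b * (u * Z) := by rw [hxd]; ring
    rw [g3]
    exact num3 hx0 hx1 hb0 he hS0 hB0 heS g1
  have d4 : Real.exp (-(Real.log 2 * (4 * S))) *
      ∑ D ∈ F₀, 2 ^ om D * Real.exp (-(wt β u D) - tr D) ≤ Real.exp ((1 - 7 * e) * S) := by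
    refine (mul_le_mul_of_nonneg_left b4 (Real.exp_pos _).le).trans ?_
    rw [← Real.exp_add]
    apply Real.exp_le_exp.2
    have h5 : 0.6931471803 < Real.log 2 := Real.log_two_gt_d9
    have h7 : 0.69 * (4 * S) ≤ Real.log 2 * (4 * S) :=
      mul_le_mul_of_nonneg_right (by linarith) (by positivity)
    have g7 : e * S ≤ (1 / 360) * S := mul_le_mul_of_nonneg_right (by linarith) hS0.le
    linarith
  have hbad : (2 * (n : ℝ) + 2) * Real.exp ((1 - 7 * e) * S) ≤ Real.exp ((1 - 4 * e) * S) / 2 := by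
    have g1 : (1 - 4 * e) * S = 3 * (e * S) + (1 - 7 * e) * S := by ring
    rw [g1, Real.exp_add]
    have g2 := Real.add_one_le_exp (3 * (e * S))
    have g3 : 4 * ((n : ℝ) + 1) ≤ Real.exp (3 * (e * S)) := by
      have : (0 : ℝ) ≤ n := Nat.cast_nonneg n
      linarith
    have g4 := mul_le_mul_of_nonneg_right g3 (Real.exp_pos ((1 - 7 * e) * S)).le
    linarith
  obtain ⟨F, hFd⟩ : ∃ F : Finset (Fin n → Idl K), F = F₀.filter (fun D =>
    (∀ i, gg (D i) ≤ ζ i * Z) ∧ (∀ i, (1 - 12 * x) * (ζ i * Z) ≤ gg (D i)) ∧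
    tr D ≤ ε * Z ∧ (om D : ℝ) ≤ 4 * S) := ⟨_, rfl⟩
  refine ⟨F, ?_, ?_⟩
  · intro D hD
    rw [hFd, mem_filter] at hD
    obtain ⟨hD0, hD1, hD2, hD3, hD4⟩ := hD
    obtain ⟨hP1, hP2, hP3⟩ := hF₀ D hD0
    refine ⟨hP1, hP2, fun p hp => ?_, hD1, hD3, ?_⟩
    · refine lt_of_lt_of_le ?_ (hP3 p hp)
      have g1 : u ^ (-(1 + e)) = u ^ (-(1 + e / 2)) * u ^ (-(e / 2)) := by
        rw [← Real.rpow_add hu0]
        congr 1
        ring
      have g2 : √(z * Z) = √z * √Z := Real.sqrt_mul hz0.le _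
      rw [g2] at hsq
      have g3 : u ^ (e / 2) ≤ √z := by
        have g4 : u ≤ z ^ (1 / e) := by linarith
        have g5 := Real.rpow_le_rpow hu0.le g4 (by linarith : 0 ≤ e / 2)
        rw [← Real.rpow_mul hz0.le] at g5
        have g6 : 1 / e * (e / 2) = 1 / 2 := by field_simp
        rw [g6, ← Real.sqrt_eq_rpow] at g5
        exact g5
      have g7 : 0 < u ^ (e / 2) := Real.rpow_pos_of_pos hu0 _
      have g8 : 0 < u ^ (-(e / 2)) := Real.rpow_pos_of_pos hu0 _
      have g9 : u ^ (e / 2) * u ^ (-(e / 2)) = 1 := by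
        rw [← Real.rpow_add hu0, add_neg_cancel, Real.rpow_zero]
      rw [g1]
      have g10 : 1 ≤ √z * u ^ (-(e / 2)) := by
        rw [← g9]
        exact mul_le_mul_of_nonneg_right g3 g8.le
      calc √Z = 1 * √Z := (one_mul _).symm
        _ ≤ (√z * u ^ (-(e / 2))) * √Z := mul_le_mul_of_nonneg_right g10 (Real.sqrt_nonneg _)
        _ = (√z * √Z) * u ^ (-(e / 2)) := by ring
        _ < u ^ (-(1 + e / 2)) * u ^ (-(e / 2)) := mul_lt_mul_of_pos_right hsq g8
    · have h5 : rs D ≤ om D * u ^ (1 + e) := by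
        unfold om rs
        rw [← nsmul_eq_mul]
        apply Finset.sum_le_card_nsmul
        intro v hv
        have h6 := hP3 v hv
        have h7 : 0 < u ^ (-(1 + e)) := Real.rpow_pos_of_pos hu0 _
        have h8 := inv_anti₀ h7 h6
        rwa [← Real.rpow_neg hu0.le, neg_neg] at h8
      have h6 : u ^ (1 + e) ≤ u ^ (1 + e / 2) :=
        Real.rpow_le_rpow_of_exponent_ge hu0 hu1'.le (by linarith)
      have h7 : (0 : ℝ) < u ^ (1 + e / 2) := Real.rpow_pos_of_pos hu0 _
      calc rs D ≤ om D * u ^ (1 + e) := h5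
        _ ≤ (4 * S) * u ^ (1 + e / 2) := mul_le_mul hD4 h6 (Real.rpow_pos_of_pos hu0 _).le
            (by positivity)
        _ = (4 * B * u ^ (1 + e / 2)) * σ := by rw [hSd]; ring
        _ ≤ (c / σ) * σ := mul_le_mul_of_nonneg_right hcB hσ0.le
        _ = c := div_mul_cancel₀ _ hσ0.ne'
  · -- pointwise bound
    have hpt : ∀ D ∈ F₀, Real.exp (-(wt β u D) - tr D) ≤
        (if D ∈ F then Real.exp (-(wt β u D) - tr D) else 0) +
        (∑ j, Real.exp (-(x * (B / β j * (1 + 7 * x)))) *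
          Real.exp (-(wt β u D + (-x) * (β j * u * gg (D j))) - tr D) +
        ∑ j, Real.exp (x * ((1 - 12 * x) * (B / β j * (1 + 7 * x)))) *
          Real.exp (-(wt β u D + x * (β j * u * gg (D j))) - tr D) +
        Real.exp (-(b * u / 2 * (ε * Z))) *
          Real.exp (-(wt β u D) - (tr D - 1 / 2 * ∑ i, β i * u * rl (D i))) +
        Real.exp (-(Real.log 2 * (4 * S))) * (2 ^ om D * Real.exp (-(wt β u D) - tr D))) := by
      intro D hD
      have p1 : ∀ j, 0 ≤ Real.exp (-(x * (B / β j * (1 + 7 * x)))) *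
          Real.exp (-(wt β u D + (-x) * (β j * u * gg (D j))) - tr D) := fun j => by positivity
      have p2 : ∀ j, 0 ≤ Real.exp (x * ((1 - 12 * x) * (B / β j * (1 + 7 * x)))) *
          Real.exp (-(wt β u D + x * (β j * u * gg (D j))) - tr D) := fun j => by positivity
      have p1' := sum_nonneg (s := (univ : Finset (Fin n))) fun j _ => p1 j
      have p2' := sum_nonneg (s := (univ : Finset (Fin n))) fun j _ => p2 j
      have p3 : 0 ≤ Real.exp (-(b * u / 2 * (ε * Z))) *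
          Real.exp (-(wt β u D) - (tr D - 1 / 2 * ∑ i, β i * u * rl (D i))) := by positivity
      have p4 : 0 ≤ Real.exp (-(Real.log 2 * (4 * S))) *
          (2 ^ om D * Real.exp (-(wt β u D) - tr D)) := by positivity
      by_cases hDF : D ∈ F
      · rw [if_pos hDF]; linarith
      rw [if_neg hDF]
      by_cases q1 : ∀ i, gg (D i) ≤ ζ i * Z
      swap
      · push Not at q1
        obtain ⟨j, hj⟩ := q1
        have g1 := single_le_sum (s := (univ : Finset (Fin n))) (fun j _ => p1 j) (mem_univ j)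
        have g2 : Real.exp (-(wt β u D) - tr D) ≤ Real.exp (-(x * (B / β j * (1 + 7 * x)))) *
          Real.exp (-(wt β u D + (-x) * (β j * u * gg (D j))) - tr D) := by
          rw [← Real.exp_add]
          apply Real.exp_le_exp.2
          rw [← hζu j]
          have g3 : β j * u * (ζ j * Z) ≤ β j * u * gg (D j) :=
            mul_le_mul_of_nonneg_left hj.le (mul_pos (hβ j) hu0).le
          nlinarith only [g3, hx0]
        linarith
      by_cases q2 : ∀ i, (1 - 12 * x) * (ζ i * Z) ≤ gg (D i)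
      swap
      · push Not at q2
        obtain ⟨j, hj⟩ := q2
        have g1 := single_le_sum (s := (univ : Finset (Fin n))) (fun j _ => p2 j) (mem_univ j)
        have g2 : Real.exp (-(wt β u D) - tr D) ≤
          Real.exp (x * ((1 - 12 * x) * (B / β j * (1 + 7 * x)))) *
          Real.exp (-(wt β u D + x * (β j * u * gg (D j))) - tr D) := by
          rw [← Real.exp_add]
          apply Real.exp_le_exp.2
          rw [← hζu j]
          have g3 : β j * u * gg (D j) ≤ β j * u * ((1 - 12 * x) * (ζ j * Z)) :=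
            mul_le_mul_of_nonneg_left hj.le (mul_pos (hβ j) hu0).le
          nlinarith only [g3, hx0]
        linarith
      by_cases q3 : ε * Z < tr D
      · have g2 : Real.exp (-(wt β u D) - tr D) ≤ Real.exp (-(b * u / 2 * (ε * Z))) *
          Real.exp (-(wt β u D) - (tr D - 1 / 2 * ∑ i, β i * u * rl (D i))) := by
          rw [← Real.exp_add]
          apply Real.exp_le_exp.2
          have g3 : b * u * tr D ≤ ∑ i, β i * u * rl (D i) := by
            rw [tr_eq (hPC D hD).1, mul_sum]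
            refine sum_le_sum fun i _ => ?_
            have g4 : 0 ≤ rl (D i) := by
              unfold rl
              refine sum_nonneg fun v _ => Real.log_nonneg ?_
              linarith [two_le_Nv v]
            have g5 := hbβ i
            gcongr
          have g4 : b * u * (ε * Z) ≤ b * u * tr D :=
            mul_le_mul_of_nonneg_left q3.le (mul_pos hb0 hu0).le
          linarith
        linarith
      by_cases q4 : (om D : ℝ) ≤ 4 * S
      · exfalso
        apply hDF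
        rw [hFd, mem_filter]
        exact ⟨hD, q1, q2, not_lt.1 q3, q4⟩
      rw [not_le] at q4
      have : Real.exp (-(wt β u D) - tr D) ≤ Real.exp (-(Real.log 2 * (4 * S))) *
          (2 ^ om D * Real.exp (-(wt β u D) - tr D)) := by
        have h2 : (2:ℝ) ^ om D = Real.exp (Real.log 2 * om D) := by
          rw [mul_comm, Real.exp_nat_mul, Real.exp_log two_pos]
        rw [h2, ← Real.exp_add, ← Real.exp_add]
        apply Real.exp_le_exp.2
        have : Real.log 2 * (4 * S) ≤ Real.log 2 * om D :=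
          mul_le_mul_of_nonneg_left q4.le (Real.log_pos one_lt_two).le
        linarith
      linarith
    have hsum := Finset.sum_le_sum hpt
    rw [Finset.sum_add_distrib, Finset.sum_add_distrib, Finset.sum_add_distrib,
      Finset.sum_add_distrib, ← Finset.mul_sum, ← Finset.mul_sum] at hsum
    have s1 : ∑ D ∈ F₀, ∑ j, Real.exp (-(x * (B / β j * (1 + 7 * x)))) *
          Real.exp (-(wt β u D + (-x) * (β j * u * gg (D j))) - tr D) ≤
        n * Real.exp ((1 - 7 * e) * S) := by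
      rw [Finset.sum_comm]
      calc _ ≤ ∑ j : Fin n, Real.exp ((1 - 7 * e) * S) := by
            refine sum_le_sum fun j _ => ?_
            rw [← Finset.mul_sum]
            exact d1 j
        _ = _ := by rw [sum_const, card_univ, Fintype.card_fin, nsmul_eq_mul]
    have s2 : ∑ D ∈ F₀, ∑ j, Real.exp (x * ((1 - 12 * x) * (B / β j * (1 + 7 * x)))) *
          Real.exp (-(wt β u D + x * (β j * u * gg (D j))) - tr D) ≤
        n * Real.exp ((1 - 7 * e) * S) := by
      rw [Finset.sum_comm]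
      calc _ ≤ ∑ j : Fin n, Real.exp ((1 - 7 * e) * S) := by
            refine sum_le_sum fun j _ => ?_
            rw [← Finset.mul_sum]
            exact d2 j
        _ = _ := by rw [sum_const, card_univ, Fintype.card_fin, nsmul_eq_mul]
    have hFsum : ∑ D ∈ F₀, (if D ∈ F then Real.exp (-(wt β u D) - tr D) else 0) =
        ∑ D ∈ F, Real.exp (-(wt β u D) - tr D) := by
      rw [← Finset.sum_filter]
      congr 1
      rw [hFd]
      ext D
      simp only [mem_filter]
      tauto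
    rw [hFsum] at hsum
    have hWt : Real.exp ((1 - 4 * e) * S) / 2 ≤ ∑ D ∈ F, Real.exp (-(wt β u D) - tr D) := by
      linarith
    have hlow : Real.exp ((1 - 12 * x) * (S * (1 + 7 * x))) *
        ∑ D ∈ F, Real.exp (-(wt β u D) - tr D) ≤ ∑ D ∈ F, Real.exp (-tr D) := by
      rw [Finset.mul_sum]
      apply Finset.sum_le_sum
      intro D hD
      rw [hFd, mem_filter] at hD
      rw [← Real.exp_add]
      apply Real.exp_le_exp.2
      have g1 : (1 - 12 * x) * (S * (1 + 7 * x)) ≤ wt β u D := by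
        unfold wt
        rw [← hS, sum_mul, mul_sum]
        refine sum_le_sum fun i _ => ?_
        rw [← hζu i]
        have g2 := mul_le_mul_of_nonneg_left (hD.2.2.1 i) (mul_pos (hβ i) hu0).le
        linarith
      linarith
    refine le_trans ?_ hlow
    refine le_trans ?_ (mul_le_mul_of_nonneg_left hWt (Real.exp_pos _).le)
    have h2 : Real.exp ((1 - 4 * e) * S) / 2 =
        Real.exp ((1 - 4 * e) * S - Real.log 2) := by
      rw [Real.exp_sub, Real.exp_log two_pos]
    rw [h2, ← Real.exp_add]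
    apply Real.exp_le_exp.2
    -- the target
    obtain ⟨W, hWd⟩ : ∃ W : ℝ, W = √(8 * (z * Z / Real.log (z * Z))) := ⟨_, rfl⟩
    rw [← hWd] at hW
    have hW0 : 0 ≤ W := by rw [hWd]; exact Real.sqrt_nonneg _
    have hl0 : 0 < Real.log (z * Z) := Real.log_pos hZ1
    have hl1 : Real.log (z * Z) ≤ Real.log Z := by
      apply Real.log_le_log (by linarith)
      nlinarith
    have t1 : ∀ i, √(8 * ζ i * Z / Real.log Z) ≤ W / β i := by
      intro i
      rw [le_div_iff₀ (hβ i), hWd]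
      apply Real.le_sqrt_of_sq_le
      rw [mul_pow, Real.sq_sqrt (by
        have := hζ i
        have : 0 < Real.log Z := by linarith
        positivity)]
      have g1 : β i ^ 2 = z / ζ i := by
        rw [hβd]
        exact Real.sq_sqrt (div_pos hz0 (hζ i)).le
      rw [g1]
      have g2 : 8 * ζ i * Z / Real.log Z * (z / ζ i) = 8 * (z * Z / Real.log Z) := by
        have := (hζ i).ne'
        field_simp
      rw [g2]
      gcongr
    have t2 : ∑ i, √(8 * ζ i * Z / Real.log Z) ≤ W * σ := by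
      rw [hσd, mul_sum]
      refine sum_le_sum fun i _ => ?_
      rw [mul_one_div]
      exact t1 i
    have t3 : W * σ ≤ 2 * S * (1 + 7 * x) := by
      have g1 : W ≤ 2 * B * (1 + 7 * x) := by
        rw [← hainv, mul_one_div, le_div_iff₀ ha0]
        linarith
      have g2 := mul_le_mul_of_nonneg_right g1 hσ0.le
      have g3 : 2 * B * (1 + 7 * x) * σ = 2 * S * (1 + 7 * x) := by rw [hSd]; ring
      linarith
    have t4 : (1 - ε) * ∑ i, √(8 * ζ i * Z / Real.log Z) ≤ (1 - ε) * (2 * S * (1 + 7 * x)) :=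
      mul_le_mul_of_nonneg_left (t2.trans t3) (by linarith)
    refine t4.trans ?_
    have t5 : ε = 40 * x := by rw [hxd]; ring
    rw [t5]
    have t6 : Real.log 2 ≤ x * S := by
      have g1 := Real.log_two_lt_d9
      have g2 : e * S ≤ x / 360 * S := mul_le_mul_of_nonneg_right he1 hS0.le
      have g3 : (0 : ℝ) ≤ n := Nat.cast_nonneg n
      have g4 : 0 < x * S := by positivity
      linarith
    exact num5 hx0 hx1 hS0 he1 t6

/-- **WINJ** -/
theorem winj (K : Type) [Field K] [NumberField K] (h1 : S_GUPK K) (h2 : S_GLOWJ K) :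
    S_WINJ K := by
  classical
  intro n ζ ε c hζ hε hε1 hc
  let s : Finset (Fin n) := univ.filter fun i => 0 < ζ i
  let g : Fin s.card → Fin n := s.orderEmbOfFin rfl
  have hg : Function.Injective g := (s.orderEmbOfFin rfl).injective
  have hgs : ∀ i, i ∉ Set.range g → ζ i = 0 := by
    intro i hi
    have h3 : i ∉ s := by
      intro h4
      apply hi
      have h5 : i ∈ (s : Set (Fin n)) := h4
      rw [← Finset.range_orderEmbOfFin s rfl] at h5
      exact h5
    by_contra h4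
    apply h3
    rw [mem_filter]
    exact ⟨mem_univ _, lt_of_le_of_ne (hζ i) (Ne.symm h4)⟩
  have hgp : ∀ a, 0 < ζ (g a) := by
    intro a
    have h3 : g a ∈ s := Finset.orderEmbOfFin_mem s rfl a
    rw [mem_filter] at h3
    exact h3.2
  have key : ∃ Z₀ : ℝ, 1 < Z₀ ∧ ∀ Z : ℝ, Z₀ ≤ Z → ∃ F : Finset (Fin s.card → Idl K),
    (∀ D ∈ F, (∀ i j, i ≠ j → Cop (D i) (D j)) ∧ Sq D ∧ (∀ v ∈ sp D, √Z < Nv v) ∧
      (∀ i, len (D i) - rl (D i) ≤ ζ (g i) * Z) ∧ tr D ≤ ε * Z ∧ rs D ≤ c) ∧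
    Real.exp ((1 - ε) * ∑ i, √(8 * ζ (g i) * Z / Real.log Z)) ≤ ∑ D ∈ F, Real.exp (-tr D) := by
    rcases Nat.eq_zero_or_pos s.card with h0 | h0
    · refine ⟨2, one_lt_two, fun Z hZ => ⟨{fun _ => 0}, ?_, ?_⟩⟩
      · intro D hD
        rw [mem_singleton] at hD
        subst hD
        have hsp : sp (fun _ : Fin s.card => (0 : Idl K)) = ∅ := by
          unfold sp
          ext v
          simp
        refine ⟨fun i j _ v => Or.inl rfl, fun v => by simp, ?_, ?_, ?_, ?_⟩
        · rw [hsp]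
          simp
        · intro i
          exact absurd i.2 (by omega)
        · unfold tr
          rw [hsp, sum_empty]
          positivity
        · unfold rs
          rw [hsp, sum_empty]
          exact hc.le
      · rw [sum_singleton]
        have hsp : sp (fun _ : Fin s.card => (0 : Idl K)) = ∅ := by
          unfold sp
          ext v
          simp
        unfold tr
        rw [hsp, sum_empty]
        have : ∑ i : Fin s.card, √(8 * ζ (g i) * Z / Real.log Z) = 0 := by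
          apply sum_eq_zero
          intro i _
          exact absurd i.2 (by omega)
        rw [this]
        simp
    · exact winj_pos K h1 h2 s.card h0 (fun a => ζ (g a)) ε c hgp hε hε1 hc
  obtain ⟨Z₀, hZ₀, hZ⟩ := key
  refine ⟨Z₀, hZ₀, fun Z hZZ => ?_⟩
  obtain ⟨F, hF, hsum⟩ := hZ Z hZZ
  refine ⟨F.image (ext g), ?_, ?_⟩
  · intro D hD
    obtain ⟨D', hD', rfl⟩ := mem_image.1 hD
    obtain ⟨a1, a2, a3, a4, a5, a6⟩ := hF D' hD'
    refine ⟨ext_cop hg a1, ext_sq hg a2, ?_, ?_, ?_, ?_⟩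
    · rw [ext_sp hg]
      exact a3
    · intro i
      by_cases hi : i ∈ Set.range g
      · obtain ⟨a, rfl⟩ := hi
        rw [ext_g hg]
        exact a4 a
      · rw [ext_z D' hi, hgs i hi]
        simp [len, rl]
    · unfold tr
      rw [ext_sp hg]
      exact a5
    · unfold rs
      rw [ext_sp hg]
      exact a6
  · rw [sum_image (fun D _ D' _ h => ext_inj hg h)]
    have h3 : ∑ i, √(8 * ζ i * Z / Real.log Z) = ∑ a, √(8 * ζ (g a) * Z / Real.log Z) := by
      symm
      refine Fintype.sum_of_injective g hg _ _ ?_ fun _ => rfl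
      intro i hi
      rw [hgs i hi]
      simp
    rw [h3]
    refine hsum.trans (le_of_eq (sum_congr rfl fun D _ => ?_))
    unfold tr
    rw [ext_sp hg]

end Pool.Agent.N570.QP
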