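import Pool.Agent.N906.QP.Stm

/-!
# Project QP (helper906), WINJ, part 1 (helper570): products of generating functions
-/

set_option autoImplicit false

namespace Pool.Agent.N570.QP

open NumberField IsDedekindDomain Finset Pool.Agent.H691R3 Pool.Agent.W223.AK
open Pool.Agent.N906.NT (Cx cst)
open Pool.Agent.N906.KG

variable {K : Type} [Field K] [NumberField K] {n : ℕ}

/-- the gain of an ideal -/
noncomputable def gg (E : Idl K) : ℝ := len E - rl E

/-- pairwise coprime ideals -/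
def PCop (D : Fin n → Idl K) : Prop := ∀ i j, i ≠ j → Cop (D i) (D j)

lemma sum_sp {M : Type} [AddCommMonoid M] {D : Fin n → Idl K} (h : PCop D) (f : Pr K → M) :
    ∑ v ∈ sp D, f v = ∑ i, ∑ v ∈ (D i).support, f v := by
  classical
  unfold sp
  convert sum_biUnion (s := (univ : Finset (Fin n))) (t := fun i => (D i).support) (f := f) ?_
  intro i _ j _ hij
  change Disjoint (D i).support (D j).support
  rw [disjoint_left]
  intro v hv hv'
  rw [Finsupp.mem_support_iff] at hv hv'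
  rcases h i j hij v with h1 | h1
  · exact hv h1
  · exact hv' h1

lemma tr_eq {D : Fin n → Idl K} (h : PCop D) : tr D = ∑ i, rl (D i) := sum_sp h _

lemma om_eq {D : Fin n → Idl K} (h : PCop D) : om D = ∑ i, (D i).support.card := by
  have h1 := sum_sp h (fun _ => 1)
  simp only [sum_const, smul_eq_mul, mul_one] at h1
  exact h1

/-- a single ideal -/
def one (E : Idl K) : Fin 1 → Idl K := fun _ => E

lemma one_cop (E : Idl K) : PCop (one E) := fun i j h => absurd (Subsingleton.elim i j) h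

lemma one_tr (E : Idl K) : tr (one E) = rl E := by
  rw [tr_eq (one_cop E)]
  simp [one]

lemma one_om (E : Idl K) : om (one E) = E.support.card := by
  rw [om_eq (one_cop E)]
  simp [one]

lemma one_gl (E : Idl K) : gl (one E) = gg E := by
  unfold gl tl gg
  rw [one_tr]
  simp [one]

lemma one_sq {E : Idl K} (h : ∀ v, E v ≠ 1) : Sq (one E) := by
  intro v
  simpa [one] using h v

lemma one_cx : Cx (univ : Finset (Finset (Fin 1))) 1 1 := by
  refine ⟨le_rfl, le_rfl, mem_univ _, fun _ _ _ _ => mem_univ _, fun s _ => ?_, ?_⟩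
  · exact (card_le_univ s).trans (by simp)
  · decide

lemma one_tp (E : Idl K) : Tp (univ : Finset (Finset (Fin 1))) (one E) := fun _ => mem_univ _

/-- the generating function of a single ideal -/
lemma gup1 (h : S_GUPK K) (μ θ e : ℝ) (hμ : 0 < μ) (hθ : 0 ≤ θ) (hθ2 : θ ≤ 1 / 2) (he : 0 < e) :
    ∃ u₀ : ℝ, 0 < u₀ ∧ u₀ < 1 / 2 ∧ ∀ u : ℝ, 0 < u → u < u₀ → ∀ F : Finset (Idl K),
      (∀ E ∈ F, ∀ v, E v ≠ 1) →
      ∑ E ∈ F, μ ^ E.support.card * Real.exp (-(u * gg E) - (1 - θ * u) * rl E) ≤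
        Real.exp ((1 + e) * μ * (1 / (u * Real.log (1 / u)))) := by
  classical
  obtain ⟨u₀, hu₀, hu₀2, h1⟩ := h 1 univ 1 1 μ θ e one_cx hμ hθ hθ2 he
  refine ⟨u₀, hu₀, hu₀2, fun u hu huu F hF => ?_⟩
  have h2 := h1 u hu huu (F.image one) (by
    intro D hD
    obtain ⟨E, hE, rfl⟩ := mem_image.1 hD
    exact ⟨one_tp E, one_sq (hF E hE)⟩)
  rw [sum_image (fun E _ E' _ hEE => congrFun hEE 0)] at h2
  simp only [one_om, one_gl, one_tr, Nat.cast_one, one_mul, mul_one, pow_one] at h2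
  rw [mul_one_div]
  exact h2

/-- the generating function of a tuple -/
theorem prod_le (h : S_GUPK K) (μ θ e : ℝ) (hμ : 0 < μ) (hθ : 0 ≤ θ) (hθ2 : θ ≤ 1 / 2)
    (he : 0 < e) :
    ∃ u₀ : ℝ, 0 < u₀ ∧ u₀ < 1 / 2 ∧ ∀ (n : ℕ) (v : Fin n → ℝ), (∀ i, 0 < v i) → (∀ i, v i < u₀) →
      ∀ F : Finset (Fin n → Idl K), (∀ D ∈ F, PCop D ∧ Sq D) →
      ∑ D ∈ F, μ ^ om D * Real.exp (-(∑ i, v i * gg (D i)) - ∑ i, (1 - θ * v i) * rl (D i)) ≤
        Real.exp ((1 + e) * μ * ∑ i, 1 / (v i * Real.log (1 / v i))) := by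
  classical
  obtain ⟨u₀, hu₀, hu₀2, h1⟩ := gup1 h μ θ e hμ hθ hθ2 he
  refine ⟨u₀, hu₀, hu₀2, fun n v hv hvu F hF => ?_⟩
  let g : (i : Fin n) → Idl K → ℝ := fun i E =>
    μ ^ E.support.card * Real.exp (-(v i * gg E) - (1 - θ * v i) * rl E)
  have hg : ∀ i E, 0 ≤ g i E := fun i E => by positivity
  have h2 : ∀ D ∈ F, μ ^ om D * Real.exp (-(∑ i, v i * gg (D i)) - ∑ i, (1 - θ * v i) * rl (D i)) =
      ∏ i, g i (D i) := by
    intro D hD
    rw [om_eq (hF D hD).1, prod_mul_distrib, prod_pow_eq_pow_sum, ← Real.exp_sum, sum_sub_distrib,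
      sum_neg_distrib]
  rw [sum_congr rfl h2]
  have h3 : F ⊆ Fintype.piFinset fun i => F.image fun D => D i := by
    intro D hD
    rw [Fintype.mem_piFinset]
    intro i
    exact mem_image_of_mem _ hD
  refine (sum_le_sum_of_subset_of_nonneg h3
    (fun D _ _ => prod_nonneg fun i _ => hg i (D i))).trans ?_
  rw [← prod_univ_sum, mul_sum, Real.exp_sum]
  refine prod_le_prod (fun i _ => sum_nonneg fun E _ => hg i E) fun i _ => ?_
  refine h1 (v i) (hv i) (hvu i) _ ?_
  intro E hE w hw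
  obtain ⟨D, hD, rfl⟩ := mem_image.1 hE
  obtain ⟨hc, hs⟩ := hF D hD
  apply hs w
  rw [sum_eq_single i]
  · exact hw
  · intro j _ hj
    rcases hc j i hj w with h4 | h4
    · exact h4
    · rw [hw] at h4
      exact absurd h4 one_ne_zero
  · intro h4
    exact absurd (mem_univ i) h4

/-! ### extension by zero -/

section ext

variable {m : ℕ} {g : Fin m → Fin n} (hg : Function.Injective g)

/-- extension by zero -/
noncomputable def ext (g : Fin m → Fin n) (D : Fin m → Idl K) : Fin n → Idl K :=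
  Function.extend g D 0

include hg

lemma ext_g (D : Fin m → Idl K) (a : Fin m) : ext g D (g a) = D a := hg.extend_apply _ _ _

omit hg in
lemma ext_z (D : Fin m → Idl K) {i : Fin n} (h : i ∉ Set.range g) : ext g D i = 0 :=
  Function.extend_apply' _ _ _ (fun ⟨a, ha⟩ => h ⟨a, ha⟩)

lemma ext_inj : Function.Injective (ext (K := K) g) := by
  intro D D' h
  funext a
  rw [← ext_g hg D a, h, ext_g hg]

lemma ext_sum {M : Type} [AddCommMonoid M] (D : Fin m → Idl K) (f : Idl K → M) (h0 : f 0 = 0) :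
    ∑ i, f (ext g D i) = ∑ a, f (D a) := by
  symm
  refine Fintype.sum_of_injective g hg _ _ ?_ ?_
  · intro i hi
    rw [ext_z D hi, h0]
  · intro a
    rw [ext_g hg]

lemma ext_sp (D : Fin m → Idl K) : sp (ext g D) = sp D := by
  classical
  ext v
  unfold sp
  simp only [mem_biUnion, mem_univ, true_and, Finsupp.mem_support_iff]
  constructor
  · rintro ⟨i, hi⟩
    by_cases h : i ∈ Set.range g
    · obtain ⟨a, rfl⟩ := h
      rw [ext_g hg] at hi
      exact ⟨a, hi⟩
    · rw [ext_z D h] at hi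
      exact absurd rfl hi
  · rintro ⟨a, ha⟩
    exact ⟨g a, by rwa [ext_g hg]⟩

lemma ext_sq {D : Fin m → Idl K} (h : Sq D) : Sq (ext g D) := by
  intro v
  rw [ext_sum hg D (fun E : Idl K => E v) rfl]
  exact h v

lemma ext_cop {D : Fin m → Idl K} (h : PCop D) : PCop (ext g D) := by
  intro i j hij v
  by_cases hi : i ∈ Set.range g
  · by_cases hj : j ∈ Set.range g
    · obtain ⟨a, rfl⟩ := hi
      obtain ⟨b, rfl⟩ := hj
      rw [ext_g hg, ext_g hg]
      exact h a b (fun hab => hij (by rw [hab])) v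
    · right
      rw [ext_z D hj]
      rfl
  · left
    rw [ext_z D hi]
    rfl

end ext

end Pool.Agent.N570.QP
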