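import Pool.Agent.N570.QP_WINJ1
import Pool.Agent.N327.NT_WINN

/-!
# Project QP (helper906), WINJ, part 2 (helper570): numerical lemmas
-/

set_option autoImplicit false

namespace Pool.Agent.N570.QP

open Finset
open Pool.Agent.N906.NT (cst)
open Pool.Agent.N878.NTW (choice)
open Pool.Agent.N327.NTW (inv1 inv2)

variable {n : ℕ}

/-- tilted weights -/
noncomputable def tw (β : Fin n → ℝ) (j : Fin n) (η : ℝ) (i : Fin n) : ℝ :=
  β i + if i = j then η * β i else 0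

lemma tw_self (β : Fin n → ℝ) (j : Fin n) (η : ℝ) : tw β j η j = β j * (1 + η) := by
  unfold tw
  rw [if_pos rfl]
  ring

lemma tw_ne (β : Fin n → ℝ) {j i : Fin n} (η : ℝ) (h : i ≠ j) : tw β j η i = β i := by
  unfold tw
  rw [if_neg h, add_zero]

lemma tw_sum (β G : Fin n → ℝ) (j : Fin n) (η u : ℝ) :
    ∑ i, (tw β j η i * u) * G i = ∑ i, β i * u * G i + η * (β j * u * G j) := by
  have h1 : ∀ i, (tw β j η i * u) * G i =
      β i * u * G i + if i = j then η * (β i * u * G i) else 0 := by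
    intro i
    unfold tw
    split_ifs <;> ring
  rw [sum_congr rfl (fun i _ => h1 i), sum_add_distrib, sum_ite_eq' univ j, if_pos (mem_univ j)]

lemma tw_pos {β : Fin n → ℝ} (hβ : ∀ i, 0 < β i) (j : Fin n) {η : ℝ} (hη : -1 < η) (i : Fin n) :
    0 < tw β j η i := by
  by_cases h : i = j
  · rw [h, tw_self]
    exact mul_pos (hβ j) (by linarith)
  · rw [tw_ne β η h]
    exact hβ i

lemma tw_le {β : Fin n → ℝ} (hβ : ∀ i, 0 < β i) (hβ1 : ∀ i, β i ≤ 1) (j : Fin n) {η : ℝ}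
    (hη : -1 < η) (hη1 : η ≤ 1) (i : Fin n) : tw β j η i ≤ 2 := by
  by_cases h : i = j
  · rw [h, tw_self]
    have h1 := hβ j
    have h2 := hβ1 j
    nlinarith
  · rw [tw_ne β η h]
    linarith [hβ1 i]

lemma tw_gen {β : Fin n → ℝ} (hβ : ∀ i, 0 < β i) (hβ1 : ∀ i, β i ≤ 1) (j : Fin n) {η κ u B : ℝ}
    (hη : -1 < η) (hη1 : η ≤ 1) (hκ : 1 / (1 + η) ≤ 1 + κ) (hB : 0 < B)
    (hgen : ∀ s : ℝ, 0 < s → s ≤ 2 → 1 / (s * u * Real.log (1 / (s * u))) ≤ B / s) :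
    ∑ i, 1 / (tw β j η i * u * Real.log (1 / (tw β j η i * u))) ≤
      ∑ i, B / β i + κ * (B / β j) := by
  have h1 : ∀ i, 1 / (tw β j η i * u * Real.log (1 / (tw β j η i * u))) ≤
      B / β i + if i = j then κ * (B / β i) else 0 := by
    intro i
    refine (hgen _ (tw_pos hβ j hη i) (tw_le hβ hβ1 j hη hη1 i)).trans ?_
    by_cases h : i = j
    · rw [if_pos h, h, tw_self]
      have h2 : B / (β j * (1 + η)) = B / β j * (1 / (1 + η)) := by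
        rw [div_mul_div_comm, mul_one]
      have h3 : 0 ≤ B / β j := (div_pos hB (hβ j)).le
      rw [h2]
      have h4 := mul_le_mul_of_nonneg_left hκ h3
      linarith
    · rw [if_neg h, tw_ne β η h, add_zero]
  refine (sum_le_sum fun i _ => h1 i).trans ?_
  rw [sum_add_distrib, sum_ite_eq' univ j, if_pos (mem_univ j)]

lemma cst_one (Y : ℝ) (hY : 0 ≤ Y) : cst 1 1 * Y ^ (((1 : ℕ) : ℝ) / (((1 : ℕ) : ℝ) + 1)) = √(8 * Y) := by
  unfold cst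
  rw [Nat.cast_one, Real.one_rpow, mul_one, Real.sqrt_mul (by norm_num), Real.sqrt_eq_rpow,
    Real.sqrt_eq_rpow]
  congr 1
  · rw [show (8 : ℝ) = 2 ^ (3 : ℝ) by norm_num, ← Real.rpow_mul (by norm_num)]
    norm_num
  · norm_num

lemma choice1 (a e c M m : ℝ) (ha : 0 < a) (ha1 : a ≤ 1) (he : 0 < e) (he1 : e ≤ 1 / 2)
    (hm : 0 < m) (hc : 0 < c) :
    ∃ Z₀ : ℝ, 1 < Z₀ ∧ ∀ Z : ℝ, Z₀ ≤ Z → ∃ u B : ℝ, 0 < u ∧ u < 1 ∧ 2 * u < m ∧ 0 < B ∧ M ≤ B ∧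
      u * (a * Z) = B ∧
      (∀ s : ℝ, 0 < s → s ≤ 2 → 1 / (s * u * Real.log (1 / (s * u))) ≤ B / s) ∧
      (1 - e) * B ≤ 1 / (u * Real.log (1 / u)) ∧
      √Z < u ^ (-(1 + e)) ∧ 4 * B * u ^ (1 + e) ≤ c ∧ a * √(8 * (Z / Real.log Z)) ≤ 2 * B := by
  obtain ⟨Z₀, hZ₀, h⟩ := choice 1 1 le_rfl le_rfl a e c M m ha ha1 he he1 hm hc
  refine ⟨Z₀, hZ₀, fun Z hZ => ?_⟩
  obtain ⟨u, B, h1, h2, h3, h4, h5, h6, h7, h8, h9, h10, h11, -⟩ := h Z hZ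
  have hZ1 : 1 < Z := hZ₀.trans_le hZ
  have hl : 0 ≤ Z / Real.log Z := div_nonneg (by linarith) (Real.log_nonneg hZ1.le)
  rw [cst_one _ hl] at h11
  simp only [Nat.cast_one, one_mul, pow_one] at h6 h7 h8 h9 h10 h11
  refine ⟨u, B, h1, h2, h3, h4, h5, h6, h7, h8, h9, h10, ?_⟩
  linarith

lemma num1 {x e S y : ℝ} (hx0 : 0 < x) (hx1 : x ≤ 1 / 40) (he : 0 < e) (hy : 0 < y)
    (h1 : 9 * (e * S) ≤ x ^ 2 * y) (h2 : y ≤ S) :
    -(x * (y * (1 + 7 * x))) + (1 + e) * (S + (x + 6 * x ^ 2) * y) ≤ (1 - 7 * e) * S := by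
  have g1 : x + 6 * x ^ 2 ≤ 1 := by nlinarith
  have g2 : (x + 6 * x ^ 2) * y ≤ S := by nlinarith
  have g3 := mul_le_mul_of_nonneg_left g2 he.le
  linarith

lemma num2 {x e S y : ℝ} (hx0 : 0 < x) (hx1 : x ≤ 1 / 40) (he : 0 < e) (hS : 0 < S) (hy : 0 < y)
    (h1 : 9 * (e * S) ≤ x ^ 2 * y) :
    x * ((1 - 12 * x) * (y * (1 + 7 * x))) + (1 + e) * (S + (-x + 2 * x ^ 2) * y) ≤
      (1 - 7 * e) * S := by
  have g1 : 0 ≤ x - 2 * x ^ 2 := by nlinarith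
  have g2 : 0 ≤ e * ((x - 2 * x ^ 2) * y) := by positivity
  have g3 : 0 ≤ x ^ 3 * y := by positivity
  have g4 : 0 < e * S := by positivity
  linarith

lemma num3 {x e S B b uZ : ℝ} (hx0 : 0 < x) (hx1 : x ≤ 1 / 40) (hb : 0 < b) (he : 0 < e)
    (hS : 0 < S) (hB : 0 < B) (h1 : 9 * (e * S) = x ^ 2 * b * B) (h2 : B ≤ uZ) :
    -(20 * x * b * uZ) + (1 + e) * S ≤ (1 - 7 * e) * S := by
  have g4 : 20 * x * b * B ≤ 20 * x * b * uZ := by gcongr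
  have g5 : x ^ 2 * b * B ≤ x * b * B := by
    have : x ^ 2 ≤ x := by nlinarith
    gcongr
  have g6 : 0 < e * S := by positivity
  linarith

lemma num5 {x e S : ℝ} (hx0 : 0 < x) (hx1 : x ≤ 1 / 40) (hS : 0 < S)
    (h1 : e ≤ x / 360) (h2 : Real.log 2 ≤ x * S) :
    (1 - 40 * x) * (2 * S * (1 + 7 * x)) ≤
      (1 - 12 * x) * (S * (1 + 7 * x)) + ((1 - 4 * e) * S - Real.log 2) := by
  have hx2 : x ^ 2 ≤ x / 40 := by nlinarith
  have t7 : e * S ≤ x / 360 * S := mul_le_mul_of_nonneg_right h1 hS.le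
  have t8 : x ^ 2 * S ≤ x / 40 * S := mul_le_mul_of_nonneg_right hx2 hS.le
  have t9 : 0 < x * S := by positivity
  have t10 : 0 < x ^ 2 * S := by positivity
  linarith

lemma num6 {e S : ℝ} (he : 0 < e) (he1 : e ≤ 1 / 2) (hS : 0 < S) :
    (1 - 4 * e) * S ≤ (1 - 3 * e) * ((1 - e / 2) * S) := by
  have h1 : 0 ≤ e ^ 2 * S := by positivity
  have h2 : 0 ≤ e * S := by positivity
  linarith

end Pool.Agent.N570.QP
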